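import Pool.Agent.W78.EC.Defs2

/-!
# The variational inequality (project EC, helper78)
-/

set_option autoImplicit false

namespace Pool.Agent.W721.ECV

open Finset Filter
open Pool.Agent.W78.EC

/-- convexity of the exponential -/
lemma exp_le_line {x M : ℝ} (hM : 0 < M) (hx : |x| ≤ M) :
    Real.exp x ≤ Real.cosh M + x * (Real.sinh M / M) := by
  have h := abs_le.1 hx
  have h1 := convexOn_exp.2 (Set.mem_univ M) (Set.mem_univ (-M))
    (show (0 : ℝ) ≤ (M + x) / (2 * M) from div_nonneg (by linarith) (by linarith))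
    (show (0 : ℝ) ≤ (M - x) / (2 * M) from div_nonneg (by linarith) (by linarith))
    (by field_simp; ring)
  simp only [smul_eq_mul] at h1
  have h2 : (M + x) / (2 * M) * M + (M - x) / (2 * M) * -M = x := by
    field_simp
    ring
  rw [h2] at h1
  refine h1.trans (le_of_eq ?_)
  rw [Real.cosh_eq, Real.sinh_eq]
  field_simp
  ring

/-- Hoeffding's lemma for a uniform distribution -/
lemma hoeff {α : Type} (U : Finset α) (hU : U.Nonempty) (g : α → ℝ) (B c : ℝ)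
    (hg : ∀ y, |g y| ≤ B) :
    ∑ y ∈ U, Real.exp (c * (g y - (∑ z ∈ U, g z) / (U.card : ℝ))) ≤
      (U.card : ℝ) * Real.exp (2 * B ^ 2 * c ^ 2) := by
  have hcard : (0 : ℝ) < U.card := by exact_mod_cast hU.card_pos
  have hB : 0 ≤ B := by
    obtain ⟨y, -⟩ := hU
    exact (abs_nonneg _).trans (hg y)
  obtain ⟨m, hm⟩ : ∃ m : ℝ, m = (∑ z ∈ U, g z) / (U.card : ℝ) := ⟨_, rfl⟩
  rw [← hm]
  have hm1 : |m| ≤ B := by
    rw [hm, abs_div, abs_of_pos hcard, div_le_iff₀ hcard]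
    calc |∑ z ∈ U, g z| ≤ ∑ z ∈ U, |g z| := abs_sum_le_sum_abs _ _
      _ ≤ ∑ _z ∈ U, B := sum_le_sum fun z _ => hg z
      _ = B * U.card := by rw [sum_const, nsmul_eq_mul, mul_comm]
  have hsum : ∑ y ∈ U, c * (g y - m) = 0 := by
    rw [← mul_sum, sum_sub_distrib, sum_const, nsmul_eq_mul, hm, mul_div_cancel₀ _ hcard.ne',
      sub_self, mul_zero]
  obtain ⟨M, hMd⟩ : ∃ M : ℝ, M = 2 * B * |c| := ⟨_, rfl⟩
  have hM0 : 0 ≤ M := by rw [hMd]; positivity
  have hx : ∀ y, |c * (g y - m)| ≤ M := by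
    intro y
    rw [abs_mul, hMd]
    have : |g y - m| ≤ 2 * B := by
      have := abs_sub (g y) m
      linarith [hg y]
    calc |c| * |g y - m| ≤ |c| * (2 * B) := mul_le_mul_of_nonneg_left this (abs_nonneg c)
      _ = 2 * B * |c| := by ring
  have hMsq : M ^ 2 / 2 = 2 * B ^ 2 * c ^ 2 := by
    rw [hMd, mul_pow, sq_abs]
    ring
  rw [← hMsq]
  rcases hM0.eq_or_lt with h0 | h0
  · have h1 : ∀ y ∈ U, Real.exp (c * (g y - m)) ≤ 1 := by
      intro y _
      have h2 := hx y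
      rw [← h0] at h2
      have h3 : c * (g y - m) = 0 := abs_eq_zero.1 (le_antisymm h2 (abs_nonneg _))
      rw [h3, Real.exp_zero]
    rw [← h0]
    calc _ ≤ ∑ _y ∈ U, (1 : ℝ) := sum_le_sum h1
      _ = _ := by simp
  · calc ∑ y ∈ U, Real.exp (c * (g y - m))
        ≤ ∑ y ∈ U, (Real.cosh M + (c * (g y - m)) * (Real.sinh M / M)) :=
          sum_le_sum fun y _ => exp_le_line h0 (hx y)
      _ = U.card * Real.cosh M := by
          rw [sum_add_distrib, ← sum_mul, hsum, zero_mul, add_zero, sum_const, nsmul_eq_mul]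
      _ ≤ _ := mul_le_mul_of_nonneg_left (Real.cosh_le_exp_half_sq M) hcard.le

section gibbs
variable {Ω A B : Type}

open scoped Classical in
/-- total weight of a fibre -/
noncomputable def Wt (s : Finset Ω) (w : Ω → ℝ) (D : Ω → A) (a : A) : ℝ :=
  ∑ ω ∈ s.filter (fun ω => D ω = a), w ω

lemma sum_fib [DecidableEq A] (s : Finset Ω) (w : Ω → ℝ) (D : Ω → A) (F : A → ℝ) :
    ∑ ω ∈ s, w ω * F (D ω) = ∑ a ∈ s.image D, Wt s w D a * F a := by
  rw [← sum_fiberwise_of_maps_to (s := s) (t := s.image D) (g := D)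
    (fun ω hω => mem_image_of_mem D hω)]
  refine sum_congr rfl fun a _ => ?_
  have : Wt s w D a = ∑ ω ∈ s.filter (fun ω => D ω = a), w ω := by
    unfold Wt
    congr
  rw [this, sum_mul]
  refine sum_congr rfl fun ω hω => ?_
  rw [(mem_filter.1 hω).2]

lemma ent_eq (s : Finset Ω) (w : Ω → ℝ) (D : Ω → A) :
    ent s w D = -∑ ω ∈ s, w ω * Real.log (Wt s w D (D ω)) := by
  classical
  rw [sum_fib s w D (fun a => Real.log (Wt s w D a)), ← sum_neg_distrib]
  unfold ent Wt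
  refine sum_congr (by congr) fun a _ => ?_
  unfold Real.negMulLog
  rw [neg_mul]

lemma Wt_nonneg {s : Finset Ω} {w : Ω → ℝ} (hw : ∀ ω ∈ s, 0 ≤ w ω) (D : Ω → A) (a : A) :
    0 ≤ Wt s w D a := by
  classical
  exact sum_nonneg fun ω hω => hw ω (mem_filter.1 hω).1

lemma le_Wt {s : Finset Ω} {w : Ω → ℝ} (hw : ∀ ω ∈ s, 0 ≤ w ω) (D : Ω → A) {ω : Ω} (hω : ω ∈ s) :
    w ω ≤ Wt s w D (D ω) := by
  classical
  unfold Wt
  exact single_le_sum (f := w) (fun i hi => hw i (mem_filter.1 hi).1) (mem_filter.2 ⟨hω, rfl⟩)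

/-- the Gibbs inequality -/
lemma gibbs (s : Finset Ω) (w : Ω → ℝ) (X : Ω → A) (D : Ω → B) (h : A → B → ℝ) (S : Finset A)
    (Z : ℝ) (hZ : 0 < Z) (hw : ∀ ω ∈ s, 0 ≤ w ω) (hX : ∀ ω ∈ s, X ω ∈ S)
    (hS : ∀ ω ∈ s, ∑ x ∈ S, Real.exp (h x (D ω)) ≤ Z) :
    ∑ ω ∈ s, w ω * h (X ω) (D ω) ≤ (∑ ω ∈ s, w ω) * Real.log Z - cE s w X D := by
  classical
  unfold cE
  rw [ent_eq s w (fun ω => (X ω, D ω)), ent_eq s w D]
  have hWn : ∀ a, 0 ≤ Wt s w (fun ω => (X ω, D ω)) a := Wt_nonneg hw _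
  have hWd : ∀ a, 0 ≤ Wt s w D a := Wt_nonneg hw _
  -- pointwise
  have h1 : ∀ ω ∈ s, w ω - w ω * (Wt s w D (D ω) * Real.exp (h (X ω) (D ω)) /
      (Wt s w (fun ω => (X ω, D ω)) (X ω, D ω) * Z)) ≤
      w ω * (Real.log (Wt s w (fun ω => (X ω, D ω)) (X ω, D ω)) - Real.log (Wt s w D (D ω)) +
        Real.log Z - h (X ω) (D ω)) := by
    intro ω hω
    rcases (hw ω hω).eq_or_lt with h0 | h0
    · rw [← h0]; simp
    have h2 : 0 < Wt s w (fun ω => (X ω, D ω)) (X ω, D ω) :=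
      lt_of_lt_of_le h0 (le_Wt hw (fun ω => (X ω, D ω)) hω)
    have h3 : 0 < Wt s w D (D ω) := lt_of_lt_of_le h0 (le_Wt hw D hω)
    have h4 := Real.exp_pos (h (X ω) (D ω))
    have h5 : Real.log (Wt s w (fun ω => (X ω, D ω)) (X ω, D ω)) - Real.log (Wt s w D (D ω)) +
        Real.log Z - h (X ω) (D ω) = -Real.log (Wt s w D (D ω) * Real.exp (h (X ω) (D ω)) /
      (Wt s w (fun ω => (X ω, D ω)) (X ω, D ω) * Z)) := by
      rw [Real.log_div (mul_pos h3 h4).ne' (mul_pos h2 hZ).ne', Real.log_mul h3.ne' h4.ne',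
        Real.log_mul h2.ne' hZ.ne', Real.log_exp]
      ring
    rw [h5]
    have h6 := Real.log_le_sub_one_of_pos (show 0 < Wt s w D (D ω) *
      Real.exp (h (X ω) (D ω)) / (Wt s w (fun ω => (X ω, D ω)) (X ω, D ω) * Z) by positivity)
    nlinarith
  have h7 := sum_le_sum h1
  rw [sum_sub_distrib] at h7
  -- the sum of the second terms
  have h8 : ∑ ω ∈ s, w ω * (Wt s w D (D ω) * Real.exp (h (X ω) (D ω)) /
      (Wt s w (fun ω => (X ω, D ω)) (X ω, D ω) * Z)) ≤ ∑ ω ∈ s, w ω := by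
    rw [sum_fib s w (fun ω => (X ω, D ω)) (fun a => Wt s w D a.2 * Real.exp (h a.1 a.2) /
      (Wt s w (fun ω => (X ω, D ω)) a * Z))]
    calc ∑ a ∈ s.image (fun ω => (X ω, D ω)), Wt s w (fun ω => (X ω, D ω)) a *
          (Wt s w D a.2 * Real.exp (h a.1 a.2) / (Wt s w (fun ω => (X ω, D ω)) a * Z))
        ≤ ∑ a ∈ s.image (fun ω => (X ω, D ω)), Wt s w D a.2 * Real.exp (h a.1 a.2) / Z := by
          refine sum_le_sum fun a _ => ?_
          rcases (hWn a).eq_or_lt with h0 | h0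
          · rw [← h0, zero_mul]
            have := hWd a.2
            have := Real.exp_pos (h a.1 a.2)
            positivity
          · refine le_of_eq ?_
            field_simp
      _ ≤ ∑ a ∈ S ×ˢ s.image D, Wt s w D a.2 * Real.exp (h a.1 a.2) / Z := by
          refine sum_le_sum_of_subset_of_nonneg ?_ ?_
          · intro a ha
            obtain ⟨ω, hω, rfl⟩ := mem_image.1 ha
            exact mem_product.2 ⟨hX ω hω, mem_image_of_mem D hω⟩
          · intro a _ _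
            have := hWd a.2
            have := Real.exp_pos (h a.1 a.2)
            positivity
      _ = ∑ d ∈ s.image D, Wt s w D d * ((∑ x ∈ S, Real.exp (h x d)) / Z) := by
          rw [sum_product_right]
          refine sum_congr rfl fun d _ => ?_
          rw [sum_div, mul_sum]
          refine sum_congr rfl fun x _ => ?_
          ring
      _ ≤ ∑ d ∈ s.image D, Wt s w D d * 1 := by
          refine sum_le_sum fun d hd => ?_
          obtain ⟨ω, hω, rfl⟩ := mem_image.1 hd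
          apply mul_le_mul_of_nonneg_left _ (hWd _)
          rw [div_le_one hZ]
          exact hS ω hω
      _ = ∑ ω ∈ s, w ω := by
          rw [← sum_fib s w D (fun _ => 1)]
          simp
  have h9 : ∑ ω ∈ s, w ω * (Real.log (Wt s w (fun ω => (X ω, D ω)) (X ω, D ω)) -
      Real.log (Wt s w D (D ω)) + Real.log Z - h (X ω) (D ω)) =
      ∑ ω ∈ s, w ω * Real.log (Wt s w (fun ω => (X ω, D ω)) (X ω, D ω)) -
      ∑ ω ∈ s, w ω * Real.log (Wt s w D (D ω)) + (∑ ω ∈ s, w ω) * Real.log Z -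
      ∑ ω ∈ s, w ω * h (X ω) (D ω) := by
    rw [sum_mul, ← sum_sub_distrib, ← sum_add_distrib, ← sum_sub_distrib]
    refine sum_congr rfl fun ω _ => ?_
    ring
  rw [h9] at h7
  linarith

end gibbs

/-- **the variational inequality** -/
theorem dv : S_DV := by
  intro Ω D α _ s w Df P Y U a ζ B τ hw hY hζ hτ
  classical
  rcases s.eq_empty_or_nonempty with rfl | hs
  · simp [cE, ent]
  have hU : ∀ p ∈ P, (U p).Nonempty := by
    intro p hp
    obtain ⟨ω, hω⟩ := hs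
    exact ⟨_, hY ω hω p hp⟩
  obtain ⟨ω₀, hω₀⟩ := hs
  -- the functions on `P`
  obtain ⟨ext, hext⟩ : ∃ ext : ((p : ℕ) → p ∈ P → α) → ℕ → α,
      ext = fun π p => if h : p ∈ P then π p h else default := ⟨_, rfl⟩
  have hexti : Function.Injective ext := by
    intro π π' h
    funext p hp
    have h1 := congrFun h p
    rw [hext] at h1
    simpa [hp] using h1
  have hextp : ∀ (π : (p : ℕ) → p ∈ P → α) (p : ℕ) (hp : p ∈ P), ext π p = π p hp := by
    intro π p hp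
    rw [hext]
    simp [hp]
  obtain ⟨mn, hmn⟩ : ∃ mn : ℕ → D → ℝ, mn = fun p d => (∑ y ∈ U p, ζ p d y) / ((U p).card : ℝ) :=
    ⟨_, rfl⟩
  obtain ⟨h, hh⟩ : ∃ h : (ℕ → α) → D → ℝ,
      h = fun x d => τ * |∑ p ∈ P, a p * (ζ p d (x p) - mn p d)| := ⟨_, rfl⟩
  obtain ⟨E, hE⟩ : ∃ E : ℝ, E = 2 * B ^ 2 * ∑ p ∈ P, (τ * a p) ^ 2 := ⟨_, rfl⟩
  obtain ⟨N, hN⟩ : ∃ N : ℝ, N = ∏ p ∈ P, ((U p).card : ℝ) := ⟨_, rfl⟩
  have hN0 : 0 < N := by
    rw [hN]
    exact prod_pos fun p hp => by exact_mod_cast (hU p hp).card_pos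
  have hone : ∀ (d : D) (σ : ℝ), σ ^ 2 = 1 → ∑ π ∈ P.pi U,
      Real.exp (σ * τ * ∑ p ∈ P, a p * (ζ p d (ext π p) - mn p d)) ≤ N * Real.exp E := by
    intro d σ hσ
    have h1 : ∀ π ∈ P.pi U, Real.exp (σ * τ * ∑ p ∈ P, a p * (ζ p d (ext π p) - mn p d)) =
        ∏ p ∈ P.attach, Real.exp ((σ * (τ * a p.1)) * (ζ p.1 d (π p.1 p.2) - mn p.1 d)) := by
      intro π _
      rw [← Real.exp_sum, mul_sum, ← sum_attach]
      congr 1
      refine sum_congr rfl fun p _ => ?_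
      rw [hextp π p.1 p.2]
      ring
    rw [sum_congr rfl h1, ← prod_sum P U
      (fun p y => Real.exp ((σ * (τ * a p)) * (ζ p d y - mn p d)))]
    calc ∏ p ∈ P, ∑ y ∈ U p, Real.exp ((σ * (τ * a p)) * (ζ p d y - mn p d))
        ≤ ∏ p ∈ P, ((U p).card : ℝ) * Real.exp (2 * B ^ 2 * (σ * (τ * a p)) ^ 2) := by
          refine prod_le_prod (fun p _ => sum_nonneg fun y _ => (Real.exp_pos _).le) fun p hp => ?_
          rw [hmn]
          exact hoeff (U p) (hU p hp) (fun y => ζ p d y) B _ (fun y => hζ p d y)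
      _ = N * Real.exp E := by
          rw [prod_mul_distrib, ← hN, ← Real.exp_sum, hE, mul_sum]
          congr 2
          refine sum_congr rfl fun p _ => ?_
          rw [mul_pow σ, hσ, one_mul]
  have hX : ∀ ω ∈ s, rsf P Y ω ∈ (P.pi U).image ext := by
    intro ω hω
    rw [mem_image]
    refine ⟨fun p _ => Y ω p, mem_pi.2 fun p hp => hY ω hω p hp, ?_⟩
    funext p
    rw [hext]
    unfold rsf
    by_cases hp : p ∈ P <;> simp [hp]
  have hS : ∀ ω ∈ s, ∑ x ∈ (P.pi U).image ext, Real.exp (h x (Df ω)) ≤ 2 * (N * Real.exp E) := by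
    intro ω _
    rw [sum_image (fun x _ y _ hxy => hexti hxy)]
    calc ∑ π ∈ P.pi U, Real.exp (h (ext π) (Df ω))
        ≤ ∑ π ∈ P.pi U, (Real.exp (1 * τ * ∑ p ∈ P, a p * (ζ p (Df ω) (ext π p) - mn p (Df ω))) +
          Real.exp (-1 * τ * ∑ p ∈ P, a p * (ζ p (Df ω) (ext π p) - mn p (Df ω)))) := by
          refine sum_le_sum fun π _ => ?_
          rw [hh]
          simp only
          rcases abs_cases (∑ p ∈ P, a p * (ζ p (Df ω) (ext π p) - mn p (Df ω))) with h1 | h1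
          · rw [h1.1, one_mul]
            have := Real.exp_pos (-1 * τ * ∑ p ∈ P, a p * (ζ p (Df ω) (ext π p) - mn p (Df ω)))
            linarith
          · rw [h1.1]
            have h2 := Real.exp_pos (1 * τ * ∑ p ∈ P, a p * (ζ p (Df ω) (ext π p) - mn p (Df ω)))
            have h3 : τ * -∑ p ∈ P, a p * (ζ p (Df ω) (ext π p) - mn p (Df ω)) =
                -1 * τ * ∑ p ∈ P, a p * (ζ p (Df ω) (ext π p) - mn p (Df ω)) := by ring
            rw [h3]
            linarith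
      _ ≤ N * Real.exp E + N * Real.exp E := by
          rw [sum_add_distrib]
          exact add_le_add (hone _ 1 (by norm_num)) (hone _ (-1) (by norm_num))
      _ = _ := by ring
  have hZ : 0 < 2 * (N * Real.exp E) := by positivity
  have hg := gibbs s w (rsf P Y) Df h ((P.pi U).image ext) (2 * (N * Real.exp E)) hZ hw hX hS
  have hlogZ : Real.log (2 * (N * Real.exp E)) =
      (∑ p ∈ P, Real.log (U p).card + Real.log 2) + E := by
    rw [Real.log_mul (by norm_num) (by positivity), Real.log_mul hN0.ne' (Real.exp_pos _).ne',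
      Real.log_exp, hN, Real.log_prod]
    · ring
    · intro p hp
      have := (hU p hp).card_pos
      positivity
  rw [hlogZ] at hg
  have hl : ∑ ω ∈ s, w ω * h (rsf P Y ω) (Df ω) = τ * ∑ ω ∈ s, w ω *
      |∑ p ∈ P, a p * (ζ p (Df ω) (Y ω p) - (∑ y ∈ U p, ζ p (Df ω) y) / ((U p).card : ℝ))| := by
    rw [mul_sum]
    refine sum_congr rfl fun ω _ => ?_
    rw [hh]
    simp only
    have : ∑ p ∈ P, a p * (ζ p (Df ω) (rsf P Y ω p) - mn p (Df ω)) =
        ∑ p ∈ P, a p * (ζ p (Df ω) (Y ω p) - (∑ y ∈ U p, ζ p (Df ω) y) / ((U p).card : ℝ)) := by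
      refine sum_congr rfl fun p hp => ?_
      rw [hmn]
      unfold rsf
      simp [hp]
    rw [this]
    ring
  rw [hl] at hg
  have hE2 : E = τ ^ 2 * ((2 * B ^ 2) * ∑ p ∈ P, a p ^ 2) := by
    rw [hE]
    have : ∑ p ∈ P, (τ * a p) ^ 2 = τ ^ 2 * ∑ p ∈ P, a p ^ 2 := by
      rw [mul_sum]
      exact sum_congr rfl fun p _ => by ring
    rw [this]
    ring
  rw [hE2] at hg
  have hfin : ∑ ω ∈ s, w ω *
      |∑ p ∈ P, a p * (ζ p (Df ω) (Y ω p) - (∑ y ∈ U p, ζ p (Df ω) y) / ((U p).card : ℝ))| ≤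
      1 / τ * ((∑ ω ∈ s, w ω) * ((∑ p ∈ P, Real.log (U p).card + Real.log 2) +
        τ ^ 2 * ((2 * B ^ 2) * ∑ p ∈ P, a p ^ 2)) - cE s w (rsf P Y) Df) := by
    rw [one_div, le_inv_mul_iff₀ hτ]
    exact hg
  refine hfin.trans (le_of_eq ?_)
  field_simp
  ring

end Pool.Agent.W721.ECV
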