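import Pool.Agent.W721.EC.Loss1

/-!
Project EC (helper78), part F2: few pairs are lost (S_LOSS).
-/

set_option autoImplicit false

namespace Pool.Agent.W721.ECL

open Finset Filter
open Pool.Agent.W78.GA Pool.Agent.W78.EC
open Pool.Agent.W714.EC (hD01 nmZ decomp par_eq mem_cone mem_edge dt_swap edge_unique dt_mul)

/-- the pairs considered -/
structure Pr (s Z : ℝ) (e : Gi × Gi) : Prop where
  p1 : prim e.1
  p2 : prim e.2
  n1 : (nm e.1 : ℝ) ≤ Z
  n2 : (nm e.2 : ℝ) ≤ Z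
  d : dt e.1 e.2 = 1
  i : 0 < ip e.1 e.2
  l1 : s * Z < (nm e.1 : ℝ)
  l2 : s * Z < (nm e.2 : ℝ)

lemma Pr.ip_ge {s Z : ℝ} {e : Gi × Gi} (h : Pr s Z e) (hs : 2 ≤ s * Z) :
    s * Z / 2 ≤ (ip e.1 e.2 : ℝ) := by
  by_contra hc
  push Not at hc
  have h1 := nm_nmR e.1 e.2
  rw [h.d] at h1
  have h2 : (0 : ℝ) < ip e.1 e.2 := by exact_mod_cast h.i
  have h3 : (ip e.1 e.2 : ℝ) ^ 2 < (s * Z / 2) ^ 2 := by nlinarith
  have h4 : (s * Z) * (s * Z) < (nm e.1 : ℝ) * nm e.2 :=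
    mul_lt_mul'' h.l1 h.l2 (by linarith) (by linarith)
  push_cast at h1
  nlinarith

lemma partner1 {s Z : ℝ} (hZ : 0 < Z) (hs0 : 0 < s) (hs : 2 ≤ s * Z) (D : Finset (Gi × Gi))
    (V : Finset Gi) (h : ∀ e ∈ D, Pr s Z e) (hV : ∀ e ∈ D, e.1 ∈ V) :
    D.card ≤ (⌊2 / s⌋₊ + 1) * V.card := by
  classical
  apply card_le_mul_card_image_of_maps_to (f := Prod.fst) hV
  intro v _
  have e1 : ((D.filter (fun e => e.1 = v)).image Prod.snd).card =
      (D.filter (fun e => e.1 = v)).card := by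
    apply card_image_of_injOn
    intro e he f hf hef
    rw [mem_coe, mem_filter] at he hf
    exact Prod.ext (by rw [he.2, hf.2]) hef
  rw [← e1]
  have key := sep (g := v) (q := 1) (p := 1) (Z := Z) (A := 0) (L := 2 / (s * Z)) one_pos nm_one
    ((D.filter (fun e => e.1 = v)).image Prod.snd) hZ (by
      intro w hw
      rw [mem_image] at hw
      obtain ⟨e, he, rfl⟩ := hw
      rw [mem_filter] at he
      obtain ⟨he, rfl⟩ := he
      have hp := h e he
      have hi := hp.ip_ge hs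
      rw [one_mul]
      refine ⟨hp.p2, hp.n2, hp.i, ?_, ?_⟩
      · rw [hp.d]; simp
      · rw [hp.d]
        push_cast
        rw [zero_add, div_mul_eq_mul_div, le_div_iff₀ (by linarith)]
        linarith)
  have e2 : 2 / (s * Z) * Z = 2 / s := by field_simp
  rwa [e2] at key

lemma partner2 {s Z : ℝ} (hZ : 0 < Z) (hs0 : 0 < s) (hs : 2 ≤ s * Z) (D : Finset (Gi × Gi))
    (V : Finset Gi) (h : ∀ e ∈ D, Pr s Z e) (hV : ∀ e ∈ D, e.2 ∈ V) :
    D.card ≤ (⌊2 / s⌋₊ + 1) * V.card := by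
  classical
  apply card_le_mul_card_image_of_maps_to (f := Prod.snd) hV
  intro v _
  have e1 : ((D.filter (fun e => e.2 = v)).image Prod.fst).card =
      (D.filter (fun e => e.2 = v)).card := by
    apply card_image_of_injOn
    intro e he f hf hef
    rw [mem_coe, mem_filter] at he hf
    exact Prod.ext hef (by rw [he.2, hf.2])
  rw [← e1]
  have key := sep (g := v) (q := 1) (p := 1) (Z := Z) (A := -(2 / (s * Z))) (L := 2 / (s * Z))
    one_pos nm_one ((D.filter (fun e => e.2 = v)).image Prod.fst) hZ (by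
      intro w hw
      rw [mem_image] at hw
      obtain ⟨e, he, rfl⟩ := hw
      rw [mem_filter] at he
      obtain ⟨he, rfl⟩ := he
      have hp := h e he
      have hi := hp.ip_ge hs
      rw [one_mul, ip_comm e.2 e.1, dt_swap e.2 e.1, hp.d]
      have h5 : (1 : ℝ) ≤ 2 / (s * Z) * ip e.1 e.2 := by
        rw [div_mul_eq_mul_div, le_div_iff₀ (by linarith)]
        linarith
      refine ⟨hp.p1, hp.n1, hp.i, ?_, ?_⟩
      · push_cast
        linarith
      · push_cast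
        linarith)
  have e2 : 2 / (s * Z) * Z = 2 / s := by field_simp
  rwa [e2] at key

lemma plk (x y b : Gi) : dt x y * ip b x = dt b y * nm x + dt x b * ip x y := by
  rw [nmZ]; simp only [ipZ, dtZ]; ring

lemma typeb {s Z : ℝ} {e : Gi × Gi} (he : Pr s Z e) (hs : 2 ≤ s * Z) {p : ℕ} {q b : Gi}
    (hp : 0 < p) (hq : nm q = p) (h1 : 0 < dt (q * e.1) b) (h2 : 0 < dt b (q * e.2)) :
    0 < ip b (q * e.1) ∧ -(2 / (s * Z)) * ip b (q * e.1) ≤ dt b (q * e.1) ∧
      (dt b (q * e.1) : ℝ) ≤ 0 := by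
  have hi := he.ip_ge hs
  have hpZ : (0 : ℤ) < p := by exact_mod_cast hp
  have e1 := plk (q * e.1) (q * e.2) b
  rw [dt_mul, ip_mul, he.d, hq, nm_mul, hq] at e1
  have hn : 0 < nm e.1 := nm_pos hD01 (prim_ne_zero he.p1)
  have hnZ : (0 : ℤ) < nm e.1 := by exact_mod_cast hn
  have e2 : (p : ℤ) * (ip b (q * e.1) - dt (q * e.1) b * ip e.1 e.2) =
      p * (dt b (q * e.2) * nm e.1) := by
    push_cast at e1
    linear_combination e1
  have e3 : ip b (q * e.1) - dt (q * e.1) b * ip e.1 e.2 = dt b (q * e.2) * nm e.1 :=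
    mul_left_cancel₀ hpZ.ne' e2
  have e4 : 0 < dt b (q * e.2) * nm e.1 := mul_pos h2 hnZ
  have e5 : dt (q * e.1) b * ip e.1 e.2 < ip b (q * e.1) := by linarith
  have e6 : 0 < dt (q * e.1) b * ip e.1 e.2 := mul_pos h1 he.i
  have e7 : dt b (q * e.1) = -dt (q * e.1) b := dt_swap _ _
  refine ⟨by linarith, ?_, ?_⟩
  · rw [e7]
    push_cast
    have e8 : (dt (q * e.1) b : ℝ) * ip e.1 e.2 ≤ ip b (q * e.1) := by exact_mod_cast e5.le
    have e9 : (0 : ℝ) < dt (q * e.1) b := by exact_mod_cast h1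
    have e10 : (dt (q * e.1) b : ℝ) * (s * Z / 2) ≤ dt (q * e.1) b * ip e.1 e.2 := by gcongr
    have e11 : (dt (q * e.1) b : ℝ) ≤ 2 / (s * Z) * ip b (q * e.1) := by
      rw [div_mul_eq_mul_div, le_div_iff₀ (by linarith)]
      linarith
    linarith
  · rw [e7]
    push_cast
    have e9 : (0 : ℝ) < dt (q * e.1) b := by exact_mod_cast h1
    linarith

lemma edge_ip {Y : ℝ} (hY : 2 ≤ Y) {e : Gi × Gi} (he : e ∈ edge 0 1 Y) : 1 ≤ ip e.1 e.2 := by
  rw [mem_edge] at he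
  obtain ⟨⟨⟨p1, n1⟩, ⟨p2, n2⟩⟩, hd, hs⟩ := he
  by_contra hc
  push Not at hc
  have h1 : (nm (e.1 + e.2) : ℝ) = nm e.1 + nm e.2 + 2 * ip e.1 e.2 := by
    exact_mod_cast nm_add' e.1 e.2
  have h2 := nm_nmR e.1 e.2
  rw [hd] at h2
  push_cast at h2
  have h3 : ip e.1 e.2 ≤ 0 := by omega
  have h3R : (ip e.1 e.2 : ℝ) ≤ 0 := by exact_mod_cast h3
  have h4 : -2 * (ip e.1 e.2 : ℝ) < nm e.1 := by linarith
  have h5 : -2 * (ip e.1 e.2 : ℝ) < nm e.2 := by linarith
  have h6 : (-2 * (ip e.1 e.2 : ℝ)) * (-2 * (ip e.1 e.2 : ℝ)) < (nm e.1 : ℝ) * nm e.2 :=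
    mul_lt_mul'' h4 h5 (by linarith) (by linarith)
  have h7 : ip e.1 e.2 = 0 := by
    by_contra h0
    have h8 : 1 ≤ ip e.1 e.2 ^ 2 := by
      have := Int.one_le_abs h0
      rw [← sq_abs]
      nlinarith
    have h8R : (1 : ℝ) ≤ (ip e.1 e.2 : ℝ) ^ 2 := by exact_mod_cast h8
    nlinarith
  rw [h7] at h2 h1
  have h9 : nm e.1 * nm e.2 = 1 := by
    have : ((nm e.1 * nm e.2 : ℕ) : ℝ) = ((1 : ℕ) : ℝ) := by
      push_cast at h2 ⊢
      linarith
    exact_mod_cast this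
  have h10 := Nat.eq_one_of_mul_eq_one_right h9
  have h11 := Nat.eq_one_of_mul_eq_one_left h9
  rw [h10, h11] at h1
  push_cast at h1
  linarith

lemma plk2 {a b : Gi} (h : dt a b = 1) (z : Gi) : ip a z = dt z b * nm a + dt a z * ip a b := by
  have : dt a b * ip a z = dt z b * nm a + dt a z * ip a b := by
    rw [nmZ]; simp only [ipZ, dtZ]; ring
  rw [h, one_mul] at this
  exact this

/-- number of the vectors in the cone over an edge -/
lemma countc {Y : ℝ} (hY : 2 ≤ Y) {f : Gi × Gi} (hf : f ∈ edge 0 1 Y) {p : ℕ} {q : Gi} {Z : ℝ}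
    (hp : 0 < p) (hq : nm q = p) (hZ : 0 < Z) (V : Finset Gi)
    (hV : ∀ v ∈ V, prim v ∧ (nm v : ℝ) ≤ Z ∧ 0 < dt f.1 (q * v) ∧ 0 < dt (q * v) f.2) :
    (V.card : ℝ) ≤ 2 * Z / (Real.sqrt (nm f.1) * Real.sqrt (nm f.2)) + 1 := by
  have hi := edge_ip hY hf
  have hf' := mem_edge.1 hf
  have hiR : (1 : ℝ) ≤ ip f.1 f.2 := by exact_mod_cast hi
  have ha : 0 < nm f.1 := nm_pos hD01 (prim_ne_zero hf'.1.1.1)
  have hb : 0 < nm f.2 := nm_pos hD01 (prim_ne_zero hf'.1.2.1)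
  have haR : (0 : ℝ) < nm f.1 := by exact_mod_cast ha
  have hbR : (0 : ℝ) < nm f.2 := by exact_mod_cast hb
  have key := sep (g := f.1) (q := q) (p := p) (Z := Z) (A := 0) (L := 1 / ip f.1 f.2) hp hq
    V hZ (by
      intro v hv
      obtain ⟨k1, k2, k3, k4⟩ := hV v hv
      have e1 := plk2 hf'.2.1 (q * v)
      have e2 : 0 < dt (q * v) f.2 * nm f.1 := mul_pos k4 (by exact_mod_cast ha)
      have e3 : 0 < dt f.1 (q * v) * ip f.1 f.2 := mul_pos k3 (by linarith)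
      refine ⟨k1, k2, by linarith, ?_, ?_⟩
      · rw [zero_mul]; exact_mod_cast k3.le
      · rw [zero_add, div_mul_eq_mul_div, le_div_iff₀ (by linarith), one_mul]
        have : dt f.1 (q * v) * ip f.1 f.2 ≤ ip f.1 (q * v) := by linarith
        exact_mod_cast this)
  have h1 : (V.card : ℝ) ≤ ⌊1 / (ip f.1 f.2 : ℝ) * Z⌋₊ + 1 := by exact_mod_cast key
  have h2 : (⌊1 / (ip f.1 f.2 : ℝ) * Z⌋₊ : ℝ) ≤ 1 / (ip f.1 f.2 : ℝ) * Z :=
    Nat.floor_le (by positivity)
  have h3 := nm_nmR f.1 f.2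
  rw [hf'.2.1] at h3
  have h4 : Real.sqrt (nm f.1) * Real.sqrt (nm f.2) ≤ 2 * ip f.1 f.2 := by
    rw [← Real.sqrt_mul haR.le]
    apply Real.sqrt_le_iff.2
    constructor
    · linarith
    · push_cast at h3
      nlinarith
  have h5 : 1 / (ip f.1 f.2 : ℝ) * Z ≤ 2 * Z / (Real.sqrt (nm f.1) * Real.sqrt (nm f.2)) := by
    rw [div_mul_eq_mul_div, one_mul, div_le_div_iff₀ (by linarith)
      (mul_pos (Real.sqrt_pos.2 haR) (Real.sqrt_pos.2 hbR))]
    nlinarith
  linarith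

lemma nm_add_le2 (a b : Gi) : (nm (a + b) : ℝ) ≤ 2 * nm a + 2 * nm b := by
  rw [nmR, nmR, nmR]
  simp only [QuadraticAlgebra.re_add, QuadraticAlgebra.im_add]
  push_cast
  nlinarith [sq_nonneg ((a.re : ℝ) - b.re), sq_nonneg ((a.im : ℝ) - b.im)]

lemma fst_inj {Y : ℝ} : Set.InjOn (Prod.fst : Gi × Gi → Gi) (edge 0 1 Y : Finset (Gi × Gi)) := by
  intro e he f hf hef
  rw [mem_coe] at he hf
  have he' := mem_edge.1 he
  have hf' := mem_edge.1 hf
  set N : ℤ := |dt e.2 f.2| + 1 with hN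
  have hN1 : 0 < N := by have := abs_nonneg (dt e.2 f.2); linarith
  have hN2 : 0 < N + dt e.2 f.2 := by have := neg_abs_le (dt e.2 f.2); linarith
  have hfd : dt e.1 f.2 = 1 := by rw [hef]; exact hf'.2.1
  set z : Gi := ⟨N * e.1.re + e.2.re, N * e.1.im + e.2.im⟩ with hz
  have z1 : dt e.1 z = dt e.1 e.2 := by rw [hz]; simp only [dtZ]; ring
  have z2 : dt z e.2 = N * dt e.1 e.2 := by rw [hz]; simp only [dtZ]; ring
  have z3 : dt z f.2 = N * dt e.1 f.2 + dt e.2 f.2 := by rw [hz]; simp only [dtZ]; ring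
  apply edge_unique he hf (z := z)
  · rw [z1, he'.2.1]; norm_num
  · rw [z2, he'.2.1]; linarith
  · rw [← hef, z1, he'.2.1]; norm_num
  · rw [z3, hfd]; linarith

lemma snd_inj {Y : ℝ} : Set.InjOn (Prod.snd : Gi × Gi → Gi) (edge 0 1 Y : Finset (Gi × Gi)) := by
  intro e he f hf hef
  rw [mem_coe] at he hf
  have he' := mem_edge.1 he
  have hf' := mem_edge.1 hf
  set N : ℤ := |dt f.1 e.1| + 1 with hN
  have hN1 : 0 < N := by have := abs_nonneg (dt f.1 e.1); linarith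
  have hN2 : 0 < N + dt f.1 e.1 := by have := neg_abs_le (dt f.1 e.1); linarith
  have hfd : dt f.1 e.2 = 1 := by rw [hef]; exact hf'.2.1
  set z : Gi := ⟨e.1.re + N * e.2.re, e.1.im + N * e.2.im⟩ with hz
  have z1 : dt e.1 z = N * dt e.1 e.2 := by rw [hz]; simp only [dtZ]; ring
  have z2 : dt z e.2 = dt e.1 e.2 := by rw [hz]; simp only [dtZ]; ring
  have z3 : dt f.1 z = N * dt f.1 e.2 + dt f.1 e.1 := by rw [hz]; simp only [dtZ]; ring
  apply edge_unique he hf (z := z)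
  · rw [z1, he'.2.1]; linarith
  · rw [z2, he'.2.1]; norm_num
  · rw [z3, hfd]; linarith
  · rw [← hef, z2, he'.2.1]; norm_num

/-- sum over the bad edges -/
lemma sumE {Y κ Z : ℝ} (hY : 2 ≤ Y) (hκ : 0 < κ) (hκ4 : κ ≤ 1 / 4) (hZ : 0 < Z)
    (E : Finset (Gi × Gi)) (φ ψ : Gi × Gi → Gi) (hE : ∀ f ∈ E, f ∈ edge 0 1 Y)
    (hφ : Set.InjOn φ (edge 0 1 Y : Finset (Gi × Gi)))
    (hφψ : ∀ f ∈ E, (φ f = f.1 ∧ ψ f = f.2) ∨ (φ f = f.2 ∧ ψ f = f.1))
    (hb : ∀ f ∈ E, (nm (φ f) : ℝ) ≤ κ * Y) :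
    ∑ f ∈ E, (2 * Z / (Real.sqrt (nm f.1) * Real.sqrt (nm f.2)) + 1) ≤
      144 * Z * Real.sqrt κ + 9 * (κ * Y) := by
  classical
  have hsY : 0 < Real.sqrt Y := Real.sqrt_pos.2 (by linarith)
  have h1 : ∀ f ∈ E, 2 * Z / (Real.sqrt (nm f.1) * Real.sqrt (nm f.2)) + 1 ≤
      4 * Z / Real.sqrt Y * (1 / Real.sqrt (nm (φ f))) + 1 := by
    intro f hf
    have hf' := mem_edge.1 (hE f hf)
    have h2 := nm_add_le2 f.1 f.2
    have h3 := hb f hf
    have h4 : Y / 4 ≤ (nm (ψ f) : ℝ) := by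
      rcases hφψ f hf with ⟨k1, k2⟩ | ⟨k1, k2⟩ <;> rw [k1] at h3 <;> rw [k2] <;>
        nlinarith [hf'.2.2]
    have h5 : Real.sqrt Y / 2 ≤ Real.sqrt (nm (ψ f)) := by
      have : Real.sqrt (Y / 4) ≤ Real.sqrt (nm (ψ f)) := Real.sqrt_le_sqrt h4
      rw [Real.sqrt_div (by linarith), show (4 : ℝ) = 2 ^ 2 by norm_num,
        Real.sqrt_sq (by norm_num)] at this
      exact this
    have h6 : Real.sqrt (nm f.1) * Real.sqrt (nm f.2) =
        Real.sqrt (nm (φ f)) * Real.sqrt (nm (ψ f)) := by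
      rcases hφψ f hf with ⟨k1, k2⟩ | ⟨k1, k2⟩ <;> rw [k1, k2]
      rw [mul_comm]
    have ha : (0 : ℝ) < nm f.1 := nm_posR hD01 (prim_ne_zero hf'.1.1.1)
    have hb' : (0 : ℝ) < nm f.2 := nm_posR hD01 (prim_ne_zero hf'.1.2.1)
    have h7 : (0 : ℝ) < nm (φ f) := by
      rcases hφψ f hf with ⟨k1, k2⟩ | ⟨k1, k2⟩ <;> rw [k1] <;> assumption
    have h8 : 0 < Real.sqrt (nm (φ f)) := Real.sqrt_pos.2 h7
    rw [h6]
    have h9 : 2 * Z / (Real.sqrt (nm (φ f)) * Real.sqrt (nm (ψ f))) ≤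
        2 * Z / (Real.sqrt (nm (φ f)) * (Real.sqrt Y / 2)) := by
      apply div_le_div_of_nonneg_left (by positivity) (by positivity)
      gcongr
    have h10 : 2 * Z / (Real.sqrt (nm (φ f)) * (Real.sqrt Y / 2)) =
        4 * Z / Real.sqrt Y * (1 / Real.sqrt (nm (φ f))) := by
      field_simp
      ring
    linarith
  have h2 : ∑ f ∈ E, (4 * Z / Real.sqrt Y * (1 / Real.sqrt (nm (φ f))) + 1) =
      ∑ a ∈ E.image φ, (4 * Z / Real.sqrt Y * (1 / Real.sqrt (nm a)) + 1) := by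
    rw [sum_image]
    intro e he f hf hef
    exact hφ (hE e he) (hE f hf) hef
  have h3 : E.image φ ⊆ ball 0 1 (κ * Y) := by
    intro a ha
    rw [mem_image] at ha
    obtain ⟨f, hf, rfl⟩ := ha
    rw [mem_ball hD01]
    refine ⟨?_, hb f hf⟩
    have hf' := mem_edge.1 (hE f hf)
    have ha := nm_pos hD01 (prim_ne_zero hf'.1.1.1)
    have hb' := nm_pos hD01 (prim_ne_zero hf'.1.2.1)
    rcases hφψ f hf with ⟨k1, k2⟩ | ⟨k1, k2⟩ <;> rw [k1] <;> omega
  have h4 : ∑ a ∈ E.image φ, (4 * Z / Real.sqrt Y * (1 / Real.sqrt (nm a)) + 1) ≤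
      ∑ a ∈ ball 0 1 (κ * Y), (4 * Z / Real.sqrt Y * (1 / Real.sqrt (nm a)) + 1) := by
    apply sum_le_sum_of_subset_of_nonneg h3
    intro a _ _
    positivity
  have h5 : ∑ a ∈ ball 0 1 (κ * Y), (4 * Z / Real.sqrt Y * (1 / Real.sqrt (nm a)) + 1) =
      4 * Z / Real.sqrt Y * ∑ a ∈ ball 0 1 (κ * Y), 1 / Real.sqrt (nm a) +
        (ball 0 1 (κ * Y)).card := by
    rw [sum_add_distrib, mul_sum, sum_const, nsmul_eq_mul, mul_one]
  have hκY : 0 ≤ κ * Y := by positivity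
  have h6 := sum_inv' hκY
  have h7 := card_ball hκY
  have h8 : 4 * Z / Real.sqrt Y * ∑ a ∈ ball 0 1 (κ * Y), 1 / Real.sqrt (nm a) ≤
      4 * Z / Real.sqrt Y * (36 * Real.sqrt (κ * Y)) := by gcongr
  have h9 : 4 * Z / Real.sqrt Y * (36 * Real.sqrt (κ * Y)) = 144 * Z * Real.sqrt κ := by
    rw [Real.sqrt_mul hκ.le]
    field_simp
    ring
  calc ∑ f ∈ E, (2 * Z / (Real.sqrt (nm f.1) * Real.sqrt (nm f.2)) + 1)
      ≤ ∑ f ∈ E, (4 * Z / Real.sqrt Y * (1 / Real.sqrt (nm (φ f))) + 1) := sum_le_sum h1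
    _ ≤ 144 * Z * Real.sqrt κ + 9 * (κ * Y) := by rw [h2]; linarith

/-- vectors which are not primitive after multiplication -/
lemma notprim {p : ℕ} (hp : p.Prime) {q : Gi} (hq : nm q = p) {Z : ℝ} (hZ : 0 ≤ Z) (A : Finset Gi)
    (hA : ∀ v ∈ A, prim v ∧ (nm v : ℝ) ≤ Z ∧ ¬ prim (q * v)) : (A.card : ℝ) ≤ 9 * (Z / p) := by
  classical
  have hpR : (0 : ℝ) < p := by exact_mod_cast hp.pos
  have h1 : A ⊆ (ball 0 1 (Z / p)).image (fun u => star q * u) := by
    intro v hv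
    obtain ⟨h1, h2, h3⟩ := hA v hv
    rw [prim_iff] at h3
    push Not at h3
    obtain ⟨l, hl, hlv⟩ := h3
    have h4 : (l : Gi) ∣ ((p : ℕ) : Gi) * v := by
      have e1 : ((p : ℕ) : Gi) * v = star q * (q * v) := by
        rw [← mul_assoc, star_mul_self' hD01, hq]
      rw [e1]
      exact hlv.mul_left _
    have h5 : l = p := by
      by_contra hne
      have h6 : IsCoprime (l : ℤ) (p : ℤ) := by
        rw [Nat.isCoprime_iff_coprime]
        exact (Nat.coprime_primes hl hp).2 hne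
      rw [natCast_dvd] at h4
      simp only [QuadraticAlgebra.re_mul, QuadraticAlgebra.im_mul, QuadraticAlgebra.re_natCast,
        QuadraticAlgebra.im_natCast] at h4
      have h7 : (l : ℤ) ∣ (p : ℤ) * v.re := by
        have := h4.1
        simpa using this
      have h8 : (l : ℤ) ∣ (p : ℤ) * v.im := by
        have := h4.2
        simpa using this
      exact prim_iff.1 h1 l hl (natCast_dvd.2 ⟨h6.dvd_of_dvd_mul_left h7,
        h6.dvd_of_dvd_mul_left h8⟩)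
    rw [h5] at hlv
    obtain ⟨u, hu⟩ := hlv
    have h6 : v = star q * u := by
      have e1 : ((p : ℕ) : Gi) * v = ((p : ℕ) : Gi) * (star q * u) := by
        have e2 : ((p : ℕ) : Gi) * v = star q * (q * v) := by
          rw [← mul_assoc, star_mul_self' hD01, hq]
        rw [e2, hu]; ring
      have hpZ : (p : ℤ) ≠ 0 := by exact_mod_cast hp.ne_zero
      have e3 := congrArg QuadraticAlgebra.re e1
      have e4 := congrArg QuadraticAlgebra.im e1
      rw [QuadraticAlgebra.re_mul, QuadraticAlgebra.re_mul] at e3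
      rw [QuadraticAlgebra.im_mul, QuadraticAlgebra.im_mul] at e4
      simp only [QuadraticAlgebra.re_natCast, QuadraticAlgebra.im_natCast, zero_mul, mul_zero,
        add_zero] at e3 e4
      exact QuadraticAlgebra.ext (mul_left_cancel₀ hpZ e3) (mul_left_cancel₀ hpZ e4)
    rw [mem_image]
    refine ⟨u, ?_, h6.symm⟩
    rw [mem_ball hD01]
    have h7 : nm v = p * nm u := by rw [h6, nm_mul, nm_star, hq]
    have h8 := nm_pos hD01 (prim_ne_zero h1)
    constructor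
    · rw [h7] at h8
      exact Nat.pos_of_mul_pos_left h8
    · rw [le_div_iff₀ hpR]
      rw [h7] at h2
      push_cast at h2
      linarith
  have h2 : A.card ≤ (ball 0 1 (Z / p)).card := (card_le_card h1).trans card_image_le
  have h3 : (A.card : ℝ) ≤ (ball 0 1 (Z / p)).card := by exact_mod_cast h2
  exact h3.trans (card_ball (by positivity))

lemma classify {K Q p : ℕ} {κ s X : ℝ} {q : Gi} (hp : 0 < p) (hq : nm q = p) {e : Gi × Gi}
    (he : Pr s (X / p) e) (hY1 : 1 ≤ X / (K * Q)) (hYs : X / (K * Q) ≤ s * X)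
    (hn : ¬ InG K κ Q X q e) (h1 : prim (q * e.1)) (h2 : prim (q * e.2)) :
    (∃ b ∈ pball 0 1 (X / (K * Q)), 0 < dt (q * e.1) b ∧ 0 < dt b (q * e.2)) ∨
    (∃ f ∈ edge 0 1 (X / (K * Q)), ((nm f.1 : ℝ) ≤ κ * (X / (K * Q)) ∨
      (nm f.2 : ℝ) ≤ κ * (X / (K * Q))) ∧ 0 < dt f.1 (q * e.1) ∧ 0 < dt (q * e.1) f.2) := by
  have hpR : (0 : ℝ) < p := by exact_mod_cast hp
  have hpZ : (0 : ℤ) < p := by exact_mod_cast hp
  have n1 : (nm (q * e.1) : ℝ) = p * nm e.1 := by rw [nm_mul, hq]; push_cast; ring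
  have n2 : (nm (q * e.2) : ℝ) = p * nm e.2 := by rw [nm_mul, hq]; push_cast; ring
  have eX : (p : ℝ) * (X / p) = X := by field_simp
  have l1 : X / (K * Q) < (nm (q * e.1) : ℝ) := by
    rw [n1]
    have : (p : ℝ) * (s * (X / p)) < p * nm e.1 := by
      have := he.l1
      gcongr
    have e2 : (p : ℝ) * (s * (X / p)) = s * X := by rw [← eX]; field_simp
    linarith
  have l2 : X / (K * Q) < (nm (q * e.2) : ℝ) := by
    rw [n2]
    have : (p : ℝ) * (s * (X / p)) < p * nm e.2 := by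
      have := he.l2
      gcongr
    have e2 : (p : ℝ) * (s * (X / p)) = s * X := by rw [← eX]; field_simp
    linarith
  have u1 : (nm (q * e.1) : ℝ) ≤ X := by
    have := he.n1
    calc (nm (q * e.1) : ℝ) = p * nm e.1 := n1
      _ ≤ p * (X / p) := by gcongr
      _ = X := eX
  have u2 : (nm (q * e.2) : ℝ) ≤ X := by
    have := he.n2
    calc (nm (q * e.2) : ℝ) = p * nm e.2 := n2
      _ ≤ p * (X / p) := by gcongr
      _ = X := eX
  obtain ⟨f, hf, k1, k2⟩ := exists_edge hY1 h1 l1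
  have hf' := mem_edge.1 hf
  rcases lt_trichotomy (dt f.2 (q * e.2)) 0 with h | h | h
  · right
    refine ⟨f, hf, ?_, k1, k2⟩
    by_contra hc
    push Not at hc
    apply hn
    refine ⟨f, ?_, ?_, ?_⟩
    · unfold good
      rw [mem_filter]
      exact ⟨hf, hc⟩
    · rw [mem_cone]
      exact ⟨⟨h1, u1⟩, k1, k2⟩
    · rw [mem_cone]
      have h3 : 0 < dt (q * e.2) f.2 := by rw [dt_swap]; linarith
      refine ⟨⟨h2, u2⟩, ?_, h3⟩
      have e1 : dt f.1 (q * e.2) * dt (q * e.1) f.2 = dt f.1 f.2 * dt (q * e.1) (q * e.2) +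
          dt f.1 (q * e.1) * dt (q * e.2) f.2 := by
        simp only [dtZ]; ring
      rw [hf'.2.1, dt_mul, he.d, hq] at e1
      have e2 : 0 < dt f.1 (q * e.2) * dt (q * e.1) f.2 := by
        rw [e1]
        have := mul_pos k1 h3
        linarith
      exact pos_of_mul_pos_left e2 k2.le
  · exfalso
    have : (nm (q * e.2) : ℝ) = nm f.2 := by
      rcases par_eq hf'.1.2.1 h2 h with h' | h'
      · rw [h']
      · rw [h', nm_neg]
    linarith [hf'.1.2.2]
  · left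
    refine ⟨f.2, ?_, k2, h⟩
    rw [mem_pball hD01]
    exact hf'.1.2

lemma count {K Q p : ℕ} {κ s X : ℝ} {q : Gi} (hp : p.Prime) (hq : nm q = p) (hs0 : 0 < s)
    (hs : 2 ≤ s * (X / p)) (hκ : 0 < κ) (hκ4 : κ ≤ 1 / 4) (hY2 : 2 ≤ X / (K * Q))
    (hYs : X / (K * Q) ≤ s * X) (D : Finset (Gi × Gi)) (hD : ∀ e ∈ D, Pr s (X / p) e)
    (hn : ∀ e ∈ D, ¬ InG K κ Q X q e) :
    (D.card : ℝ) ≤ (⌊2 / s⌋₊ + 1) * (18 * (X / p / p) + 9 * (X / (K * Q)) * (⌊2 / s⌋₊ + 1) +
      2 * (144 * (X / p) * Real.sqrt κ + 9 * (κ * (X / (K * Q))))) := by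
  classical
  set B : ℕ := ⌊2 / s⌋₊ + 1 with hB
  set Z : ℝ := X / p with hZd
  set Y : ℝ := X / (K * Q) with hYd
  have hZ : 0 < Z := by
    by_contra hc
    push Not at hc
    nlinarith
  set A : Finset Gi := (pball 0 1 Z).filter (fun v => ¬ prim (q * v)) with hA
  set Vb : Finset Gi := (pball 0 1 Y).biUnion (fun b => (pball 0 1 Z).filter (fun v =>
    0 < ip b (q * v) ∧ -(2 / (s * Z)) * ip b (q * v) ≤ dt b (q * v) ∧
      (dt b (q * v) : ℝ) ≤ 0)) with hVb
  set E1 : Finset (Gi × Gi) := (edge 0 1 Y).filter (fun f => (nm f.1 : ℝ) ≤ κ * Y) with hE1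
  set E2 : Finset (Gi × Gi) := (edge 0 1 Y).filter (fun f => (nm f.2 : ℝ) ≤ κ * Y) with hE2
  set W : Gi × Gi → Finset Gi := fun f => (pball 0 1 Z).filter (fun v =>
    0 < dt f.1 (q * v) ∧ 0 < dt (q * v) f.2) with hW
  have hAc : (A.card : ℝ) ≤ 9 * (Z / p) := by
    apply notprim hp hq hZ.le
    intro v hv
    rw [hA, mem_filter, mem_pball hD01] at hv
    exact ⟨hv.1.1, hv.1.2, hv.2⟩
  have hVbc : (Vb.card : ℝ) ≤ 9 * Y * B := by
    have h1 : Vb.card ≤ (pball 0 1 Y).card * B := by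
      rw [hVb]
      apply card_biUnion_le_card_mul
      intro b _
      have key := sep (g := b) (q := q) (p := p) (Z := Z) (A := -(2 / (s * Z)))
        (L := 2 / (s * Z)) hp.pos hq ((pball 0 1 Z).filter (fun v =>
          0 < ip b (q * v) ∧ -(2 / (s * Z)) * ip b (q * v) ≤ dt b (q * v) ∧
          (dt b (q * v) : ℝ) ≤ 0)) hZ (by
          intro v hv
          rw [mem_filter, mem_pball hD01] at hv
          obtain ⟨⟨k1, k2⟩, k3, k4, k5⟩ := hv
          refine ⟨k1, k2, k3, k4, ?_⟩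
          rw [neg_add_cancel, zero_mul]
          exact k5)
      have e2 : 2 / (s * Z) * Z = 2 / s := by field_simp
      rwa [e2] at key
    have h2 : (Vb.card : ℝ) ≤ (pball 0 1 Y).card * B := by exact_mod_cast h1
    have h3 : ((pball 0 1 Y).card : ℝ) ≤ 9 * Y := by
      refine le_trans ?_ (card_ball (by linarith))
      unfold pball
      exact_mod_cast card_filter_le _ _
    refine h2.trans ?_
    gcongr
  have hWc : ∀ E : Finset (Gi × Gi), (∀ f ∈ E, f ∈ edge 0 1 Y) → ((E.biUnion W).card : ℝ) ≤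
      ∑ f ∈ E, (2 * Z / (Real.sqrt (nm f.1) * Real.sqrt (nm f.2)) + 1) := by
    intro E hE
    have h1 : ((E.biUnion W).card : ℝ) ≤ ∑ f ∈ E, ((W f).card : ℝ) := by
      exact_mod_cast card_biUnion_le
    refine h1.trans (sum_le_sum ?_)
    intro f hf
    apply countc hY2 (hE f hf) hp.pos hq hZ
    intro v hv
    rw [hW] at hv
    simp only at hv
    rw [mem_filter, mem_pball hD01] at hv
    exact ⟨hv.1.1, hv.1.2, hv.2.1, hv.2.2⟩
  have hE1e : ∀ f ∈ E1, f ∈ edge 0 1 Y := fun f hf => (mem_filter.1 hf).1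
  have hE2e : ∀ f ∈ E2, f ∈ edge 0 1 Y := fun f hf => (mem_filter.1 hf).1
  have h1 : ((E1.biUnion W).card : ℝ) ≤ 144 * Z * Real.sqrt κ + 9 * (κ * Y) :=
    (hWc E1 hE1e).trans (sumE hY2 hκ hκ4 hZ E1 Prod.fst Prod.snd hE1e fst_inj
      (fun f _ => Or.inl ⟨rfl, rfl⟩) (fun f hf => (mem_filter.1 hf).2))
  have h2 : ((E2.biUnion W).card : ℝ) ≤ 144 * Z * Real.sqrt κ + 9 * (κ * Y) :=
    (hWc E2 hE2e).trans (sumE hY2 hκ hκ4 hZ E2 Prod.snd Prod.fst hE2e snd_inj
      (fun f _ => Or.inr ⟨rfl, rfl⟩) (fun f hf => (mem_filter.1 hf).2))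
  set V1 : Finset Gi := A ∪ (Vb ∪ (E1.biUnion W ∪ E2.biUnion W)) with hV1
  have hV1c : (V1.card : ℝ) ≤ A.card + (Vb.card + ((E1.biUnion W).card + (E2.biUnion W).card)) := by
    have e1 := card_union_le A (Vb ∪ (E1.biUnion W ∪ E2.biUnion W))
    have e2 := card_union_le Vb (E1.biUnion W ∪ E2.biUnion W)
    have e3 := card_union_le (E1.biUnion W) (E2.biUnion W)
    have e4 : V1.card ≤ A.card + (Vb.card + ((E1.biUnion W).card + (E2.biUnion W).card)) := by
      rw [hV1]; omega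
    exact_mod_cast e4
  have hcover : ∀ e ∈ D, e.1 ∈ V1 ∨ e.2 ∈ A := by
    intro e he
    have hP := hD e he
    by_cases q2 : prim (q * e.2)
    · left
      rw [hV1, mem_union, mem_union, mem_union]
      by_cases q1 : prim (q * e.1)
      · right
        rcases classify hp.pos hq hP (by linarith) hYs (hn e he) q1 q2 with
          ⟨b, hb, k1, k2⟩ | ⟨f, hf, hs', k1, k2⟩
        · left
          rw [hVb, mem_biUnion]
          refine ⟨b, hb, ?_⟩
          rw [mem_filter, mem_pball hD01]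
          exact ⟨⟨hP.p1, hP.n1⟩, typeb hP hs hp.pos hq k1 k2⟩
        · right
          rcases hs' with h | h
          · left
            rw [mem_biUnion]
            refine ⟨f, mem_filter.2 ⟨hf, h⟩, ?_⟩
            rw [hW]
            simp only
            rw [mem_filter, mem_pball hD01]
            exact ⟨⟨hP.p1, hP.n1⟩, k1, k2⟩
          · right
            rw [mem_biUnion]
            refine ⟨f, mem_filter.2 ⟨hf, h⟩, ?_⟩
            rw [hW]
            simp only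
            rw [mem_filter, mem_pball hD01]
            exact ⟨⟨hP.p1, hP.n1⟩, k1, k2⟩
      · left
        rw [hA, mem_filter, mem_pball hD01]
        exact ⟨⟨hP.p1, hP.n1⟩, q1⟩
    · right
      rw [hA, mem_filter, mem_pball hD01]
      exact ⟨⟨hP.p2, hP.n2⟩, q2⟩
  have hD1 : D.card ≤ B * V1.card + B * A.card := by
    have e1 : D.card ≤ (D.filter (fun e => e.1 ∈ V1)).card + (D.filter (fun e => e.2 ∈ A)).card := by
      refine le_trans (card_le_card ?_) (card_union_le _ _)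
      intro e he
      rw [mem_union, mem_filter, mem_filter]
      rcases hcover e he with h | h
      · left; exact ⟨he, h⟩
      · right; exact ⟨he, h⟩
    have e2 := partner1 hZ hs0 hs (D.filter (fun e => e.1 ∈ V1)) V1
      (fun e he => hD e (mem_filter.1 he).1) (fun e he => (mem_filter.1 he).2)
    have e3 := partner2 hZ hs0 hs (D.filter (fun e => e.2 ∈ A)) A
      (fun e he => hD e (mem_filter.1 he).1) (fun e he => (mem_filter.1 he).2)
    rw [← hB] at e2 e3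
    omega
  have hD1R : (D.card : ℝ) ≤ B * V1.card + B * A.card := by exact_mod_cast hD1
  have hBR : (B : ℝ) = (⌊2 / s⌋₊ : ℝ) + 1 := by rw [hB]; push_cast; ring
  rw [← hBR]
  have hV1c2 : (V1.card : ℝ) + A.card ≤ 18 * (Z / p) + 9 * Y * B +
      2 * (144 * Z * Real.sqrt κ + 9 * (κ * Y)) := by linarith
  calc (D.card : ℝ) ≤ B * V1.card + B * A.card := hD1R
    _ = B * ((V1.card : ℝ) + A.card) := by ring
    _ ≤ _ := by gcongr

theorem loss : S_LOSS := by
  classical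
  intro s ε hs hε
  set B : ℝ := (⌊2 / s⌋₊ : ℝ) + 1 with hB
  have hB0 : 0 < B := by positivity
  obtain ⟨K₁, hK₁⟩ := exists_nat_gt (max (1 / s) (max 1 (54 * B * B / ε)))
  refine ⟨K₁, fun K hK => ?_⟩
  have hKR : (K₁ : ℝ) ≤ K := by exact_mod_cast hK
  have hK1 : 1 / s < K := lt_of_lt_of_le (lt_of_le_of_lt (le_max_left _ _) hK₁) hKR
  have hK2 : 1 < (K : ℝ) := lt_of_lt_of_le (lt_of_le_of_lt
    ((le_max_left _ _).trans (le_max_right _ _)) hK₁) hKR
  have hK3 : 54 * B * B / ε < K := lt_of_lt_of_le (lt_of_le_of_lt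
    ((le_max_right _ _).trans (le_max_right _ _)) hK₁) hKR
  have hK0 : (0 : ℝ) < K := by linarith
  refine ⟨min (1 / 4) ((ε / (972 * B)) ^ 2), by positivity, fun κ hκ hκ' => ?_⟩
  have hκ4 : κ ≤ 1 / 4 := hκ'.trans (min_le_left _ _)
  have hκs : Real.sqrt κ ≤ ε / (972 * B) := by
    rw [Real.sqrt_le_left (by positivity)]
    exact hκ'.trans (min_le_right _ _)
  have hκκ : κ ≤ Real.sqrt κ := by
    rw [Real.le_sqrt' hκ]
    nlinarith
  obtain ⟨Q₀, hQ₀⟩ := exists_nat_gt (max 1 (54 * B / ε))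
  refine ⟨Q₀, fun Q hQ => ?_⟩
  have hQR : (Q₀ : ℝ) ≤ Q := by exact_mod_cast hQ
  have hQ1 : (1 : ℝ) < Q := lt_of_lt_of_le (lt_of_le_of_lt (le_max_left _ _) hQ₀) hQR
  have hQ2 : 54 * B / ε < (Q : ℝ) := lt_of_lt_of_le (lt_of_le_of_lt (le_max_right _ _) hQ₀) hQR
  refine ⟨max (4 * Q / s) (2 * (K * Q)), fun X hX p hp q hq => ?_⟩
  have hX1 : 4 * Q / s ≤ X := (le_max_left _ _).trans hX
  have hX2 : 2 * (K * Q) ≤ X := (le_max_right _ _).trans hX
  unfold PQ at hp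
  rw [mem_filter, mem_Ioc] at hp
  obtain ⟨⟨hp1, hp2⟩, hpp, -⟩ := hp
  have hp1R : (Q : ℝ) < p := by exact_mod_cast hp1
  have hp2R : (p : ℝ) ≤ 2 * Q := by exact_mod_cast hp2
  have hpR : (0 : ℝ) < p := by linarith
  have hX0 : 0 < X := lt_of_lt_of_le (by positivity) hX2
  have hZ0 : 0 < X / p := by positivity
  have h1 := count (K := K) (Q := Q) (p := p) (κ := κ) (s := s) (X := X) (q := q) hpp hq hs
    (by
      have e1 : 4 * Q ≤ X * s := by rwa [div_le_iff₀ hs] at hX1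
      rw [mul_div_assoc', le_div_iff₀ hpR]
      nlinarith)
    hκ hκ4 (by rw [le_div_iff₀ (by positivity)]; exact hX2)
    (by
      rw [div_le_iff₀ (by positivity)]
      have e1 : 1 < s * K := by rwa [div_lt_iff₀ hs, mul_comm] at hK1
      have e2 : 1 ≤ s * (K * Q) := by nlinarith
      nlinarith)
    ((dedge 0 1 (X / p)).filter (fun e => 0 < ip e.1 e.2 ∧ s * (X / p) < (nm e.1 : ℝ) ∧
      s * (X / p) < (nm e.2 : ℝ) ∧ ¬ InG K κ Q X q e))
    (by
      intro e he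
      unfold dedge at he
      rw [mem_filter, mem_filter, mem_product, mem_pball hD01, mem_pball hD01] at he
      obtain ⟨⟨⟨⟨k1, k2⟩, ⟨k3, k4⟩⟩, k5⟩, k6, k7, k8, k9⟩ := he
      exact ⟨k1, k3, k2, k4, k5, k6, k7, k8⟩)
    (by
      intro e he
      rw [mem_filter] at he
      exact he.2.2.2.2)
  refine h1.trans ?_
  rw [← hB]
  set Z : ℝ := X / p with hZ
  have hY : X / (K * Q) ≤ 2 * Z / K := by
    rw [hZ, div_le_div_iff₀ (by positivity) hK0]
    have : X ≤ X / p * (2 * Q) := by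
      rw [div_mul_eq_mul_div, le_div_iff₀ hpR]
      gcongr
    nlinarith
  have hY' : X / (K * Q) ≤ 2 * Z := by
    refine hY.trans ?_
    rw [div_le_iff₀ hK0]
    nlinarith
  have hZp : Z / p ≤ Z / Q := by
    apply div_le_div_of_nonneg_left hZ0.le (by linarith) hp1R.le
  have t1 : B * (18 * (Z / p)) ≤ ε / 3 * Z := by
    have e1 : B * (18 * (Z / p)) ≤ B * (18 * (Z / Q)) := by gcongr
    have e2 : B * (18 * (Z / Q)) = 18 * B * Z / Q := by ring
    have e3 : 18 * B * Z / Q ≤ ε / 3 * Z := by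
      rw [div_le_iff₀ (by linarith)]
      rw [div_lt_iff₀ hε] at hQ2
      nlinarith
    linarith
  have t2 : B * (9 * (X / (K * Q)) * B) ≤ ε / 3 * Z := by
    have e1 : B * (9 * (X / (K * Q)) * B) ≤ B * (9 * (2 * Z / K) * B) := by gcongr
    have e2 : B * (9 * (2 * Z / K) * B) = 18 * B * B * Z / K := by ring
    have e3 : 18 * B * B * Z / K ≤ ε / 3 * Z := by
      rw [div_le_iff₀ hK0]
      rw [div_lt_iff₀ hε] at hK3
      nlinarith
    linarith
  have t3 : B * (2 * (144 * Z * Real.sqrt κ + 9 * (κ * (X / (K * Q))))) ≤ ε / 3 * Z := by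
    have e1 : κ * (X / (K * Q)) ≤ Real.sqrt κ * (2 * Z) := by gcongr
    have e2 : B * (2 * (144 * Z * Real.sqrt κ + 9 * (κ * (X / (K * Q))))) ≤
        B * (2 * (144 * Z * Real.sqrt κ + 9 * (Real.sqrt κ * (2 * Z)))) := by gcongr
    have e3 : B * (2 * (144 * Z * Real.sqrt κ + 9 * (Real.sqrt κ * (2 * Z)))) =
        324 * B * Z * Real.sqrt κ := by ring
    have e4 : 324 * B * Z * Real.sqrt κ ≤ 324 * B * Z * (ε / (972 * B)) := by gcongr
    have e5 : 324 * B * Z * (ε / (972 * B)) = ε / 3 * Z := by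
      field_simp
      ring
    linarith
  calc B * (18 * (Z / p) + 9 * (X / (K * Q)) * B +
      2 * (144 * Z * Real.sqrt κ + 9 * (κ * (X / (K * Q)))))
      = B * (18 * (Z / p)) + B * (9 * (X / (K * Q)) * B) +
        B * (2 * (144 * Z * Real.sqrt κ + 9 * (κ * (X / (K * Q))))) := by ring
    _ ≤ ε * Z := by linarith

end Pool.Agent.W721.ECL
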