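import Pool.Agent.W714.EC.Bij

/-!
Project EC (helper78), part F2, basic lemmas: separated directions, number of points in a ball,
existence of the edge over a direction.
-/

set_option autoImplicit false

namespace Pool.Agent.W721.ECL

open Finset Filter
open Pool.Agent.W78.GA Pool.Agent.W78.EC
open Pool.Agent.W714.EC (hD01 nmZ decomp par_eq mem_cone mem_edge dt_swap edge_unique dt_mul)

lemma nmR (z : Gi) : (nm z : ℝ) = (z.re : ℝ) ^ 2 + (z.im : ℝ) ^ 2 := by
  have := nmZ z
  exact_mod_cast this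

lemma ipZ (a b : Gi) : ip a b = a.re * b.re + a.im * b.im := by unfold ip; ring

lemma dtZ (a b : Gi) : dt a b = a.re * b.im - a.im * b.re := rfl

lemma ip_mul (q v w : Gi) : ip (q * v) (q * w) = nm q * ip v w := by
  rw [nmZ, ipZ, ipZ]
  simp only [QuadraticAlgebra.re_mul, QuadraticAlgebra.im_mul]
  ring

lemma ip_comm (v w : Gi) : ip v w = ip w v := by rw [ipZ, ipZ]; ring

lemma nm_nm (a b : Gi) : (nm a : ℤ) * nm b = ip a b ^ 2 + dt a b ^ 2 := by
  rw [nmZ, nmZ, ipZ, dtZ]; ring

lemma nm_nmR (a b : Gi) : (nm a : ℝ) * nm b = (ip a b : ℝ) ^ 2 + (dt a b : ℝ) ^ 2 := by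
  exact_mod_cast nm_nm a b

lemma nm_add' (a b : Gi) : (nm (a + b) : ℤ) = nm a + nm b + 2 * ip a b := by
  rw [nmZ, nmZ, nmZ, ipZ]
  simp only [QuadraticAlgebra.re_add, QuadraticAlgebra.im_add]
  ring

lemma cross (g a b : Gi) : dt g a * ip g b - dt g b * ip g a = nm g * dt b a := by
  rw [nmZ]; simp only [ipZ, dtZ]; ring

/-- separated directions -/
lemma sep {g q : Gi} {p : ℕ} {Z A L : ℝ} (hp : 0 < p) (hq : nm q = p) (V : Finset Gi)
    (hZ : 0 < Z)
    (hV : ∀ v ∈ V, prim v ∧ (nm v : ℝ) ≤ Z ∧ 0 < ip g (q * v) ∧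
      A * ip g (q * v) ≤ dt g (q * v) ∧ (dt g (q * v) : ℝ) ≤ (A + L) * ip g (q * v)) :
    V.card ≤ ⌊L * Z⌋₊ + 1 := by
  classical
  set τ : Gi → ℝ := fun v => (dt g (q * v) : ℝ) / ip g (q * v) with hτ
  set f : Gi → ℕ := fun v => ⌊(τ v - A) * Z⌋₊ with hf
  have hpR : (0 : ℝ) < p := by exact_mod_cast hp
  have hmap : ∀ v ∈ V, f v ∈ range (⌊L * Z⌋₊ + 1) := by
    intro v hv
    obtain ⟨h1, h2, h3, h4, h5⟩ := hV v hv
    have h3' : (0 : ℝ) < ip g (q * v) := by exact_mod_cast h3
    rw [mem_range, Nat.lt_succ_iff]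
    apply Nat.floor_le_floor
    apply mul_le_mul_of_nonneg_right _ hZ.le
    have : τ v ≤ A + L := by rw [hτ]; simp only; rw [div_le_iff₀ h3']; exact h5
    linarith
  have hinj : ∀ v ∈ V, ∀ w ∈ V, f v = f w → v = w := by
    intro v hv w hw hvw
    by_contra hne
    obtain ⟨h1, h2, h3, h4, h5⟩ := hV v hv
    obtain ⟨k1, k2, k3, k4, k5⟩ := hV w hw
    have h3' : (0 : ℝ) < ip g (q * v) := by exact_mod_cast h3
    have k3' : (0 : ℝ) < ip g (q * w) := by exact_mod_cast k3
    have hA1 : 0 ≤ (τ v - A) * Z := by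
      apply mul_nonneg _ hZ.le
      have : A ≤ τ v := by rw [hτ]; simp only; rw [le_div_iff₀ h3']; exact h4
      linarith
    have hA2 : 0 ≤ (τ w - A) * Z := by
      apply mul_nonneg _ hZ.le
      have : A ≤ τ w := by rw [hτ]; simp only; rw [le_div_iff₀ k3']; exact k4
      linarith
    have hfl : |(τ v - A) * Z - (τ w - A) * Z| < 1 := by
      have e1 := Nat.floor_le hA1
      have e2 := Nat.lt_floor_add_one ((τ v - A) * Z)
      have e3 := Nat.floor_le hA2
      have e4 := Nat.lt_floor_add_one ((τ w - A) * Z)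
      have e5 : (⌊(τ v - A) * Z⌋₊ : ℝ) = (⌊(τ w - A) * Z⌋₊ : ℝ) := by
        have : f v = f w := hvw
        rw [hf] at this
        simp only at this
        rw [this]
      rw [abs_lt]
      constructor <;> linarith
    have hd : dt w v ≠ 0 := by
      intro h0
      rcases par_eq k1 h1 h0 with h | h
      · exact hne h
      · rw [h] at h3
        have : ip g (q * -w) = - ip g (q * w) := by
          rw [mul_neg, ipZ, ipZ]; simp only [QuadraticAlgebra.re_neg, QuadraticAlgebra.im_neg]; ring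
        rw [this] at h3
        linarith
    have hd1 : (1 : ℝ) ≤ |(dt w v : ℝ)| := by
      have : 1 ≤ |dt w v| := Int.one_le_abs hd
      exact_mod_cast this
    have hg : g ≠ 0 := by
      rintro rfl
      rw [ipZ] at h3
      simp at h3
    have hgR : (0 : ℝ) < nm g := nm_posR hD01 hg
    have hc : (dt g (q * v) : ℝ) * ip g (q * w) - dt g (q * w) * ip g (q * v) =
        nm g * (p * dt w v) := by
      have := cross g (q * v) (q * w)
      rw [dt_mul, hq] at this
      exact_mod_cast this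
    have hi1 : (ip g (q * v) : ℝ) ^ 2 ≤ nm g * (p * Z) := by
      have e1 := nm_nmR g (q * v)
      rw [nm_mul, hq] at e1
      push_cast at e1
      have e2 : (nm g : ℝ) * (p * nm v) ≤ nm g * (p * Z) := by gcongr
      nlinarith [sq_nonneg (dt g (q * v) : ℝ)]
    have hi2 : (ip g (q * w) : ℝ) ^ 2 ≤ nm g * (p * Z) := by
      have e1 := nm_nmR g (q * w)
      rw [nm_mul, hq] at e1
      push_cast at e1
      have e2 : (nm g : ℝ) * (p * nm w) ≤ nm g * (p * Z) := by gcongr
      nlinarith [sq_nonneg (dt g (q * w) : ℝ)]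
    have hi : (ip g (q * v) : ℝ) * ip g (q * w) ≤ nm g * (p * Z) := by
      nlinarith [sq_nonneg ((ip g (q * v) : ℝ) - ip g (q * w))]
    have hpos : (0 : ℝ) < ip g (q * v) * ip g (q * w) := mul_pos h3' k3'
    have hdiff : (τ v - A) * Z - (τ w - A) * Z =
        (nm g * (p * Z)) * dt w v / (ip g (q * v) * ip g (q * w)) := by
      rw [hτ]
      simp only
      rw [div_sub' h3'.ne', div_sub' k3'.ne']
      rw [eq_div_iff hpos.ne']
      field_simp
      linear_combination hc
    rw [hdiff, abs_div, abs_of_pos hpos, abs_mul, abs_of_pos (by positivity), div_lt_one hpos] at hfl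
    have : nm g * (p * Z) * 1 ≤ nm g * (p * Z) * |(dt w v : ℝ)| := by gcongr
    linarith
  have := card_le_card_of_injOn f hmap hinj
  rwa [card_range] at this

lemma ball_empty {R : ℝ} (hR : R < 1) : ball 0 1 R = ∅ := by
  apply eq_empty_of_forall_notMem
  intro z hz
  rw [mem_ball hD01] at hz
  have : (1 : ℝ) ≤ nm z := by exact_mod_cast hz.1
  linarith [hz.2]

lemma card_ball {R : ℝ} (hR : 0 ≤ R) : ((ball 0 1 R).card : ℝ) ≤ 9 * R := by
  rcases lt_or_ge R 1 with h | h
  · rw [ball_empty h, card_empty]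
    push_cast
    linarith
  · set m : ℕ := ⌊Real.sqrt R⌋₊ with hm
    have h1 : (ball 0 1 R).card ≤ (Icc (-(m : ℤ)) m ×ˢ Icc (-(m : ℤ)) m).card := by
      apply card_le_card_of_injOn (fun z => (z.re, z.im))
      · intro z hz
        rw [mem_coe, mem_ball hD01] at hz
        have hz2 := hz.2
        rw [nmR] at hz2
        have key : ∀ x : ℤ, (x : ℝ) ^ 2 ≤ R → -(m : ℤ) ≤ x ∧ x ≤ m := by
          intro x hx
          rw [← abs_le]
          have h2 : |(x : ℝ)| ≤ Real.sqrt R := Real.abs_le_sqrt hx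
          have h3 : (|x| : ℤ).toNat ≤ m := by
            apply Nat.le_floor
            have : (((|x|).toNat : ℕ) : ℤ) = |x| := Int.toNat_of_nonneg (abs_nonneg x)
            have h4 : (((|x|).toNat : ℕ) : ℝ) = |(x : ℝ)| := by
              have h5 : ((((|x|).toNat : ℕ) : ℤ) : ℝ) = ((|x| : ℤ) : ℝ) := by rw [this]
              push_cast at h5
              exact h5
            rw [h4]; exact h2
          omega
        rw [coe_product, Set.mem_prod, mem_coe, mem_coe, mem_Icc, mem_Icc]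
        exact ⟨key z.re (by nlinarith [sq_nonneg (z.im : ℝ)]),
          key z.im (by nlinarith [sq_nonneg (z.re : ℝ)])⟩
      · intro z _ w _ hzw
        simp only [Prod.mk.injEq] at hzw
        exact QuadraticAlgebra.ext hzw.1 hzw.2
    rw [card_product, Int.card_Icc] at h1
    have h2 : ((m : ℤ) + 1 - -(m : ℤ)).toNat = 2 * m + 1 := by omega
    rw [h2] at h1
    have h3 : ((ball 0 1 R).card : ℝ) ≤ (2 * m + 1) * (2 * m + 1) := by exact_mod_cast h1
    have h4 : (m : ℝ) ≤ Real.sqrt R := Nat.floor_le (Real.sqrt_nonneg _)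
    have h5 : 1 ≤ Real.sqrt R := by rw [Real.one_le_sqrt]; exact h
    have h6 : Real.sqrt R * Real.sqrt R = R := Real.mul_self_sqrt hR
    have h7 : (0 : ℝ) ≤ m := by positivity
    nlinarith

lemma sum_inv : ∀ n : ℕ, ∀ R : ℝ, 0 ≤ R → R < 4 ^ n →
    ∑ z ∈ ball 0 1 R, 1 / Real.sqrt (nm z) ≤ 36 * Real.sqrt R := by
  intro n
  induction n with
  | zero =>
    intro R h0 hR
    rw [pow_zero] at hR
    rw [ball_empty hR, sum_empty]
    positivity
  | succ n ih =>
    intro R h0 hR
    rcases lt_or_ge R 1 with h | h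
    · rw [ball_empty h, sum_empty]
      positivity
    have h1 := ih (R / 4) (by positivity) (by rw [pow_succ] at hR; linarith)
    rw [← sum_filter_add_sum_filter_not (ball 0 1 R) (fun z => (nm z : ℝ) ≤ R / 4)]
    have e1 : (ball 0 1 R).filter (fun z => (nm z : ℝ) ≤ R / 4) = ball 0 1 (R / 4) := by
      ext z
      rw [mem_filter, mem_ball hD01, mem_ball hD01]
      constructor
      · rintro ⟨⟨h2, h3⟩, h4⟩; exact ⟨h2, h4⟩
      · rintro ⟨h2, h4⟩; exact ⟨⟨h2, by linarith⟩, h4⟩
    rw [e1]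
    have hsq : Real.sqrt (R / 4) = Real.sqrt R / 2 := by
      rw [Real.sqrt_div h0]
      congr 1
      rw [show (4 : ℝ) = 2 ^ 2 by norm_num, Real.sqrt_sq (by norm_num)]
    have h5 : 1 ≤ Real.sqrt R := by rw [Real.one_le_sqrt]; exact h
    have h6 : Real.sqrt R * Real.sqrt R = R := Real.mul_self_sqrt h0
    have h2 : ∑ z ∈ (ball 0 1 R).filter (fun z => ¬ (nm z : ℝ) ≤ R / 4), 1 / Real.sqrt (nm z) ≤
        18 * Real.sqrt R := by
      have e2 : ∑ z ∈ (ball 0 1 R).filter (fun z => ¬ (nm z : ℝ) ≤ R / 4), 1 / Real.sqrt (nm z) ≤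
          ∑ z ∈ (ball 0 1 R).filter (fun z => ¬ (nm z : ℝ) ≤ R / 4), 2 / Real.sqrt R := by
        apply sum_le_sum
        intro z hz
        rw [mem_filter] at hz
        have h7 : Real.sqrt (R / 4) ≤ Real.sqrt (nm z) := Real.sqrt_le_sqrt (by
          have := hz.2
          push Not at this
          exact this.le)
        rw [hsq] at h7
        have : 1 / Real.sqrt (nm z) ≤ 1 / (Real.sqrt R / 2) := by
          apply one_div_le_one_div_of_le _ h7
          positivity
        rw [one_div_div] at this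
        exact this
      rw [sum_const, nsmul_eq_mul] at e2
      have e3 : (((ball 0 1 R).filter (fun z => ¬ (nm z : ℝ) ≤ R / 4)).card : ℝ) ≤ 9 * R := by
        refine le_trans ?_ (card_ball h0)
        exact_mod_cast card_filter_le _ _
      have e4 : (((ball 0 1 R).filter (fun z => ¬ (nm z : ℝ) ≤ R / 4)).card : ℝ) *
          (2 / Real.sqrt R) ≤ 9 * R * (2 / Real.sqrt R) := by gcongr
      have e5 : 9 * R * (2 / Real.sqrt R) = 18 * Real.sqrt R := by
        have : Real.sqrt R ≠ 0 := by positivity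
        field_simp
        nlinarith
      linarith
    rw [hsq] at h1
    linarith

lemma sum_inv' {R : ℝ} (hR : 0 ≤ R) :
    ∑ z ∈ ball 0 1 R, 1 / Real.sqrt (nm z) ≤ 36 * Real.sqrt R := by
  obtain ⟨n, hn⟩ := pow_unbounded_of_one_lt R (by norm_num : (1 : ℝ) < 4)
  exact sum_inv n R hR hn

lemma prim_of_dt' {v u : Gi} (h : dt v u = 1) : prim v ∧ prim u := by
  unfold dt at h
  constructor
  · refine Int.isCoprime_iff_gcd_eq_one.1 ⟨u.im, -u.re, by linear_combination h⟩
  · refine Int.isCoprime_iff_gcd_eq_one.1 ⟨-v.im, v.re, by linear_combination h⟩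

lemma edge_aux {Y : ℝ} {z : Gi} (hz : prim z) (hzY : Y < nm z) : ∀ n : ℕ, ∀ a b : Gi,
    dt a b = 1 → (nm a : ℝ) ≤ Y → (nm b : ℝ) ≤ Y → 0 < dt a z → 0 < dt z b →
    (dt a z + dt z b).toNat ≤ n → ∃ e ∈ edge 0 1 Y, 0 < dt e.1 z ∧ 0 < dt z e.2 := by
  intro n
  induction n with
  | zero => intro a b _ _ _ h1 h2 h3; omega
  | succ n ih =>
    intro a b hab ha hb h1 h2 h3
    by_cases hY : Y < (nm (a + b) : ℝ)
    · refine ⟨(a, b), ?_, h1, h2⟩
      rw [mem_edge]
      exact ⟨⟨⟨(prim_of_dt' hab).1, ha⟩, ⟨(prim_of_dt' hab).2, hb⟩⟩, hab, hY⟩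
    · push Not at hY
      have d1 : dt a (a + b) = 1 := by
        refine Eq.trans ?_ hab
        simp only [dtZ, QuadraticAlgebra.re_add, QuadraticAlgebra.im_add]; ring
      have d2 : dt (a + b) b = 1 := by
        refine Eq.trans ?_ hab
        simp only [dtZ, QuadraticAlgebra.re_add, QuadraticAlgebra.im_add]; ring
      have d3 : dt (a + b) z = dt a z - dt z b := by
        simp only [dtZ, QuadraticAlgebra.re_add, QuadraticAlgebra.im_add]; ring
      have d4 : dt z (a + b) = dt z b - dt a z := by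
        simp only [dtZ, QuadraticAlgebra.re_add, QuadraticAlgebra.im_add]; ring
      rcases lt_trichotomy (dt a z) (dt z b) with h | h | h
      · apply ih a (a + b) d1 ha hY h1 (by rw [d4]; linarith)
        rw [d4]; omega
      · exfalso
        have h0 : dt (a + b) z = 0 := by rw [d3]; linarith
        have : (nm z : ℝ) = nm (a + b) := by
          rcases par_eq (prim_of_dt' d1).2 hz h0 with h' | h'
          · rw [h']
          · rw [h', nm_neg]
        linarith
      · apply ih (a + b) b d2 hY hb (by rw [d3]; linarith) h2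
        rw [d3]; omega

lemma exists_edge {Y : ℝ} (hY : 1 ≤ Y) {z : Gi} (hz : prim z) (hzY : Y < nm z) :
    ∃ e ∈ edge 0 1 Y, 0 < dt e.1 z ∧ 0 < dt z e.2 := by
  have hre : z.re ≠ 0 := by
    intro h
    have h1 : nm z = 1 := by
      unfold prim at hz
      rw [h, Int.gcd_zero_left] at hz
      have h2 := nmZ z
      rw [h] at h2
      have h3 : z.im ^ 2 = 1 := by rw [← Int.natAbs_sq, hz]; norm_num
      rw [h3] at h2
      norm_num at h2
      exact h2
    rw [h1] at hzY
    push_cast at hzY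
    linarith
  have him : z.im ≠ 0 := by
    intro h
    have h1 : nm z = 1 := by
      unfold prim at hz
      rw [h, Int.gcd_zero_right] at hz
      have h2 := nmZ z
      rw [h] at h2
      have h3 : z.re ^ 2 = 1 := by rw [← Int.natAbs_sq, hz]; norm_num
      rw [h3] at h2
      norm_num at h2
      exact h2
    rw [h1] at hzY
    push_cast at hzY
    linarith
  have n1 : ∀ x y : ℤ, x ^ 2 + y ^ 2 = 1 → ((nm (⟨x, y⟩ : Gi) : ℕ) : ℝ) ≤ Y := by
    intro x y hxy
    have : (nm (⟨x, y⟩ : Gi) : ℤ) = 1 := by rw [nmZ]; exact hxy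
    have h2 : nm (⟨x, y⟩ : Gi) = 1 := by exact_mod_cast this
    rw [h2]
    push_cast
    exact hY
  rcases lt_or_gt_of_ne hre with h1 | h1 <;> rcases lt_or_gt_of_ne him with h2 | h2
  · exact edge_aux hz hzY _ (⟨-1, 0⟩ : Gi) (⟨0, -1⟩ : Gi) (by simp [dtZ])
      (n1 _ _ (by norm_num)) (n1 _ _ (by norm_num)) (by simp [dtZ]; linarith)
      (by simp [dtZ]; linarith) le_rfl
  · exact edge_aux hz hzY _ (⟨0, 1⟩ : Gi) (⟨-1, 0⟩ : Gi) (by simp [dtZ])
      (n1 _ _ (by norm_num)) (n1 _ _ (by norm_num)) (by simp [dtZ]; linarith)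
      (by simp [dtZ]; linarith) le_rfl
  · exact edge_aux hz hzY _ (⟨0, -1⟩ : Gi) (⟨1, 0⟩ : Gi) (by simp [dtZ])
      (n1 _ _ (by norm_num)) (n1 _ _ (by norm_num)) (by simp [dtZ]; linarith)
      (by simp [dtZ]; linarith) le_rfl
  · exact edge_aux hz hzY _ (⟨1, 0⟩ : Gi) (⟨0, 1⟩ : Gi) (by simp [dtZ])
      (n1 _ _ (by norm_num)) (n1 _ _ (by norm_num)) (by simp [dtZ]; linarith)
      (by simp [dtZ]; linarith) le_rfl

end Pool.Agent.W721.ECL
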