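import Pool.Agent.W721.EC.Tools

set_option autoImplicit false

/-!
`S_univ` and `S_pow` of the EC project (helper721).
-/

namespace Pool.Agent.W721.EC

open MvPolynomial
open Pool.Agent.W996.EC

theorem t_univ : S_univ := by
  intro n l p hl hp
  have hN : 0 < ∑ i, l i * l i := by
    have h0 : 0 ≤ ∑ i, l i * l i := Finset.sum_nonneg fun i _ => mul_self_nonneg _
    rcases eq_or_lt_of_le h0 with h | h
    · exfalso
      apply hl
      funext i
      have h1 := (Finset.sum_eq_zero_iff_of_nonneg (fun i _ => mul_self_nonneg (l i))).1 h.symm i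
        (Finset.mem_univ i)
      exact mul_self_eq_zero.1 h1
    · exact h
  set v : Fin n → ℝ := (∑ i, l i * l i)⁻¹ • l with hv
  have hlv : dot l v = 1 := by
    rw [hv, dot_smul]
    unfold dot
    exact inv_mul_cancel₀ hN.ne'
  refine ⟨aeval (fun i => Polynomial.C (v i : ℂ) * Polynomial.X) p, ?_⟩
  apply eq_of_real
  intro y
  have h1 : eval (cx y) (Polynomial.aeval (lin l)
      (aeval (fun i => Polynomial.C (v i : ℂ) * Polynomial.X) p)) =
      (aeval (fun i => Polynomial.C (v i : ℂ) * Polynomial.X) p).eval ((dot l y : ℝ) : ℂ) := by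
    rw [← eval_lin_cx, Polynomial.eval_eq_sum_range, Polynomial.aeval_eq_sum_range, map_sum]
    apply Finset.sum_congr rfl
    intro i _
    rw [smul_eval, map_pow]
  rw [h1, eval_aeval]
  set κ : Fin n → ℝ := y - dot l y • v with hκ
  have hκl : dot l κ = 0 := by
    rw [hκ, dot_sub, dot_smul, hlv]; ring
  have h2 := inv_of_Dk (hp κ hκl) (fun i => ((v i : ℝ) : ℂ) * ((dot l y : ℝ) : ℂ)) 1
  have h3 : (fun i => ((v i : ℝ) : ℂ) * ((dot l y : ℝ) : ℂ) + ((κ i : ℝ) : ℂ) * 1) = cx y := by
    funext i
    simp only [hκ, cx, Pi.sub_apply, Pi.smul_apply, smul_eq_mul]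
    push_cast
    ring
  rw [h3] at h2
  rw [h2]
  simp

theorem t_pow : S_pow := by
  intro n A e f he hf hom hinv hspan hstar
  set K := KK f with hK
  -- invariance under the whole space is impossible
  have hKtop : K ≠ ⊤ := by
    intro h
    apply hf
    apply eq_of_real
    intro y
    have hy : Dk y f = 0 := by
      have : y ∈ K := by rw [h]; trivial
      exact this
    have h1 := inv_of_Dk hy 0 1
    have h2 : (fun i => (0 : Fin n → ℂ) i + ((y i : ℝ) : ℂ) * 1) = cx y := by
      funext i; simp [cx]
    rw [h2, hom_zero hom he] at h1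
    rw [h1, map_zero]
  -- a direction of `A` where `f` does not vanish
  have h1 : ∃ a ∈ A, eval (cx a) f ≠ 0 := by
    by_contra hcon
    push Not at hcon
    obtain ⟨φ, hφ0, hφ⟩ := Submodule.exists_le_ker_of_lt_top K (lt_top_iff_ne_top.2 hKtop)
    have hl : (fun i => φ (Pi.single i 1)) ≠ 0 := by
      intro h
      apply hφ0
      ext y
      rw [LinearMap.comp_apply]
      have := congrFun h y
      simpa using this
    obtain ⟨a, ha, hneg⟩ := hspan _ hl
    have h2 : a ∈ K := hinv a (hcon a ha)
    have h3 : φ a = 0 := hφ h2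
    rw [dual_dot φ a] at h3
    linarith
  obtain ⟨a, haA, hfa⟩ := h1
  -- translates along `a`
  have h2 : ∀ κ : Fin n → ℝ, ∃ s : ℝ, s • a + κ ∈ K := by
    intro κ
    set G : Polynomial ℂ := ln (fun i => Complex.I * (κ i : ℂ)) (cx a) f with hG
    set H : Polynomial ℂ := ln (cx a) (fun i => Complex.I * (κ i : ℂ)) f with hH
    have hGe : ∀ ω : ℂ, G.eval ω = eval (fun i => (a i : ℂ) * ω + Complex.I * (κ i : ℂ)) f := by
      intro ω
      rw [hG, ln_eval]
      congr 1
      apply congrArg
      funext i
      unfold cx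
      ring
    have hHe : ∀ t : ℂ, t ≠ 0 → H.eval t = t ^ e * G.eval t⁻¹ := by
      intro t ht
      rw [hH, ln_eval, hGe, ← hom_smul hom]
      congr 1
      apply congrArg
      funext i
      unfold cx
      field_simp
    have hH0 : H.eval 0 = eval (cx a) f := by
      rw [hH, ln_eval]
      congr 1
      apply congrArg
      funext i
      simp
    have hdeg : G.natDegree ≠ 0 := by
      intro h
      obtain ⟨c, hc⟩ := Polynomial.natDegree_eq_zero.1 h
      have h3 : H = Polynomial.C c * Polynomial.X ^ e := by
        apply Polynomial.eq_of_infinite_eval_eq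
        apply Set.Infinite.mono (s := {t : ℂ | t ≠ 0})
        · intro t ht
          have ht' : t ≠ 0 := ht
          change H.eval t = _
          rw [hHe t ht', ← hc]
          simp
          ring
        · have : {t : ℂ | t ≠ 0} = ({0} : Set ℂ)ᶜ := by ext t; simp
          rw [this]
          exact (Set.finite_singleton (0 : ℂ)).infinite_compl
      rw [h3] at hH0
      simp only [Polynomial.eval_mul, Polynomial.eval_C, Polynomial.eval_pow,
        Polynomial.eval_X] at hH0
      rw [zero_pow (by omega), mul_zero] at hH0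
      exact hfa hH0.symm
    have hG0 : G ≠ 0 := by
      intro h; rw [h] at hdeg; simp at hdeg
    have hdeg' : G.degree ≠ 0 := by
      intro h
      apply hdeg
      exact Polynomial.natDegree_eq_of_degree_eq_some h
    obtain ⟨ω, hω⟩ := IsAlgClosed.exists_root G hdeg'
    have hω' : eval (fun i => (a i : ℂ) * ω + Complex.I * (κ i : ℂ)) f = 0 := by
      rw [← hGe]; exact hω
    -- the real part of the root vanishes
    have hre : ω.re = 0 := by
      by_contra hne
      rcases lt_or_gt_of_ne hne with hlt | hgt
      · rcases hstar a haA κ with h | h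
        · exact h ω hlt hω'
        · apply hG0
          apply Polynomial.funext
          intro t
          rw [hGe, h t]; simp
      · have hneg : ∀ t : ℂ, eval (fun i => (a i : ℂ) * (-t) + Complex.I * ((-κ) i : ℝ)) f =
            (-1) ^ e * eval (fun i => (a i : ℂ) * t + Complex.I * (κ i : ℂ)) f := by
          intro t
          rw [← hom_smul hom]
          congr 1
          apply congrArg
          funext i
          simp only [Pi.neg_apply]
          push_cast
          ring
        rcases hstar a haA (-κ) with h | h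
        · apply h (-ω) (by simpa using hgt)
          rw [hneg, hω', mul_zero]
        · apply hG0
          apply Polynomial.funext
          intro t
          have h4 := h (-t)
          rw [hneg] at h4
          rw [hGe]
          have h5 : ((-1 : ℂ)) ^ e ≠ 0 := pow_ne_zero _ (by norm_num)
          rw [(mul_eq_zero.1 h4).resolve_left h5]
          simp
    refine ⟨ω.im, ?_⟩
    have hωI : ω = Complex.I * (ω.im : ℂ) := by
      apply Complex.ext
      · simp [hre]
      · simp
    apply hinv
    have h3 : (fun i => (a i : ℂ) * ω + Complex.I * (κ i : ℂ)) =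
        fun i => Complex.I * cx (ω.im • a + κ) i := by
      funext i
      conv_lhs => rw [hωI]
      simp only [cx, Pi.add_apply, Pi.smul_apply, smul_eq_mul]
      push_cast
      ring
    rw [h3, hom_smul hom] at hω'
    exact (mul_eq_zero.1 hω').resolve_left (pow_ne_zero _ Complex.I_ne_zero)
  -- `a` is not in `K`
  have haK : a ∉ K := by
    intro h
    have h3 := inv_of_Dk (mem_KK.1 h) 0 1
    have h4 : (fun i => (0 : Fin n → ℂ) i + ((a i : ℝ) : ℂ) * 1) = cx a := by
      funext i; simp [cx]
    rw [h4, hom_zero hom he] at h3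
    exact hfa h3
  obtain ⟨φ, hφ0, hφ⟩ := Submodule.exists_le_ker_of_lt_top K (lt_top_iff_ne_top.2 hKtop)
  have hφa : φ a ≠ 0 := by
    intro h
    apply hφ0
    refine LinearMap.ext fun y => ?_
    obtain ⟨s, hs⟩ := h2 y
    have h3 : φ (s • a + y) = 0 := hφ hs
    rw [map_add, map_smul, h, smul_zero, zero_add] at h3
    rw [h3]; rfl
  set ψ : (Fin n → ℝ) →ₗ[ℝ] ℝ := (φ a)⁻¹ • φ with hψ
  have hψa : ψ a = 1 := by
    rw [hψ, LinearMap.smul_apply, smul_eq_mul, inv_mul_cancel₀ hφa]
  have hψK : ∀ y ∈ K, ψ y = 0 := by
    intro y hy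
    rw [hψ, LinearMap.smul_apply, show φ y = 0 from hφ hy, smul_zero]
  set l : Fin n → ℝ := fun i => ψ (Pi.single i 1) with hl
  have hdot : ∀ y, dot l y = ψ y := fun y => (dual_dot ψ y).symm
  refine ⟨eval (cx a) f, l, hfa, ?_, ?_⟩
  · intro h
    have h3 := hdot a
    rw [h, hψa] at h3
    unfold dot at h3
    simp at h3
  · apply eq_of_real
    intro y
    rw [map_mul, map_pow, eval_C, eval_lin_cx, hdot]
    obtain ⟨s, hs⟩ := h2 y
    have h3 := hψK _ hs
    rw [map_add, map_smul, hψa, smul_eq_mul, mul_one] at h3
    have h4 := inv_of_Dk (mem_KK.1 hs) (fun i => ((ψ y : ℝ) : ℂ) * cx a i) 1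
    have h5 : (fun i => ((ψ y : ℝ) : ℂ) * cx a i + (((s • a + y) i : ℝ) : ℂ) * 1) = cx y := by
      funext i
      have h6 : s = -ψ y := by linarith
      simp only [cx, Pi.add_apply, Pi.smul_apply, smul_eq_mul, h6]
      push_cast
      ring
    rw [h5, hom_smul hom] at h4
    rw [h4, mul_comm]

end Pool.Agent.W721.EC
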