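import Pool.Agent.W996.EC.Stm

set_option autoImplicit false

/-!
Tools on polynomials: restriction to lines, invariance, real points (helper721).
-/

namespace Pool.Agent.W721.EC

open MvPolynomial
open Pool.Agent.W996.EC

variable {n : ℕ}

/-- restriction to a line -/
noncomputable def ln (x v : Fin n → ℂ) (p : MvPolynomial (Fin n) ℂ) : Polynomial ℂ :=
  aeval (fun i => Polynomial.C (x i) + Polynomial.C (v i) * Polynomial.X) p

lemma eval_aeval (g : Fin n → Polynomial ℂ) (p : MvPolynomial (Fin n) ℂ) (t : ℂ) :
    (aeval g p).eval t = eval (fun i => (g i).eval t) p := by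
  induction p using MvPolynomial.induction_on with
  | C a => simp [MvPolynomial.algHom_C, Polynomial.algebraMap_eq]
  | add p q hp hq => rw [map_add, Polynomial.eval_add, hp, hq, map_add]
  | mul_X p i hp => rw [map_mul, Polynomial.eval_mul, hp, aeval_X, map_mul, eval_X]

lemma ln_eval (x v : Fin n → ℂ) (p : MvPolynomial (Fin n) ℂ) (t : ℂ) :
    (ln x v p).eval t = eval (fun i => x i + v i * t) p := by
  unfold ln
  rw [eval_aeval]
  simp

/-- chain rule -/
lemma deriv_aeval (g : Fin n → Polynomial ℂ) (p : MvPolynomial (Fin n) ℂ) :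
    Polynomial.derivative (aeval g p) =
      ∑ i, aeval g (pderiv i p) * Polynomial.derivative (g i) := by
  induction p using MvPolynomial.induction_on with
  | C a => simp [MvPolynomial.algHom_C, Polynomial.algebraMap_eq]
  | add p q hp hq =>
    simp only [map_add, hp, hq, add_mul, Finset.sum_add_distrib]
  | mul_X p j hp =>
    rw [map_mul, Polynomial.derivative_mul, hp, aeval_X]
    have h1 : ∀ i, aeval g (pderiv i (p * X j)) = aeval g (pderiv i p) * g j +
        aeval g p * (if j = i then 1 else 0) := by
      intro i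
      rw [pderiv_mul, pderiv_X, map_add, map_mul, map_mul, aeval_X, Pi.single_apply]
      congr 2
      by_cases h : j = i
      · rw [if_pos h, if_pos h, map_one]
      · rw [if_neg h, if_neg h, map_zero]
    simp only [h1, add_mul, Finset.sum_add_distrib]
    congr 1
    · rw [Finset.sum_mul]
      apply Finset.sum_congr rfl
      intro i _
      ring
    · rw [Finset.sum_eq_single j]
      · simp
      · intro i _ hi
        rw [if_neg (fun h => hi h.symm)]
        ring
      · intro h; exact absurd (Finset.mem_univ j) h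

/-- a polynomial with vanishing derivative in the direction `κ` is invariant in that direction -/
lemma inv_of_Dk {κ : Fin n → ℝ} {p : MvPolynomial (Fin n) ℂ} (h : Dk κ p = 0) (x : Fin n → ℂ)
    (t : ℂ) : eval (fun i => x i + (κ i : ℂ) * t) p = eval x p := by
  have h1 : Polynomial.derivative (ln x (cx κ) p) = 0 := by
    unfold ln
    rw [deriv_aeval]
    have h2 : ∀ i, Polynomial.derivative (Polynomial.C (x i) + Polynomial.C (cx κ i) *
        Polynomial.X) = Polynomial.C ((κ i : ℝ) : ℂ) := by
      intro i
      simp [cx]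
    simp only [h2]
    have h3 : aeval (fun i => Polynomial.C (x i) + Polynomial.C (cx κ i) * Polynomial.X)
        (Dk κ p) = ∑ i, aeval (fun i => Polynomial.C (x i) + Polynomial.C (cx κ i) *
          Polynomial.X) (pderiv i p) * Polynomial.C ((κ i : ℝ) : ℂ) := by
      unfold Dk
      rw [map_sum]
      apply Finset.sum_congr rfl
      intro i _
      rw [map_mul, MvPolynomial.algHom_C, Polynomial.algebraMap_eq]
      ring
    rw [← h3, h, map_zero]
  have h4 := Polynomial.derivative_eq_zero.1 h1
  obtain ⟨c, hc⟩ := Polynomial.natDegree_eq_zero.1 h4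
  have h5 := ln_eval x (cx κ) p t
  have h6 := ln_eval x (cx κ) p 0
  rw [← hc, Polynomial.eval_C] at h5 h6
  have h7 : (fun i => x i + cx κ i * 0) = x := by funext i; simp
  rw [h7] at h6
  rw [← h6, h5]
  rfl

/-- polynomials are determined by their values at real points -/
lemma eq_of_real {p q : MvPolynomial (Fin n) ℂ} (h : ∀ y : Fin n → ℝ, eval (cx y) p = eval (cx y) q) :
    p = q := by
  refine MvPolynomial.funext_set (s := fun _ => Set.range ((↑) : ℝ → ℂ))
    (fun _ => Set.infinite_range_of_injective Complex.ofReal_injective) fun x hx => ?_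
  choose y hy using fun i => hx i (Set.mem_univ i)
  have : x = cx y := by
    funext i
    exact (hy i).symm
  rw [this]
  exact h y

/-- homogeneous polynomials at multiples -/
lemma hom_smul {e : ℕ} {f : MvPolynomial (Fin n) ℂ} (hf : f.IsHomogeneous e) (t : ℂ)
    (x : Fin n → ℂ) : eval (fun i => t * x i) f = t ^ e * eval x f := by
  rw [eval_eq', eval_eq', Finset.mul_sum]
  apply Finset.sum_congr rfl
  intro m hm
  have h1 : ∑ i, m i = e := by
    have h2 := hf (mem_support_iff.1 hm)
    rw [Finsupp.weight_apply, Finsupp.sum_fintype _ _ (fun _ => by simp)] at h2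
    simpa using h2
  simp only [mul_pow]
  rw [Finset.prod_mul_distrib, Finset.prod_pow_eq_pow_sum, h1]
  ring

lemma hom_zero {e : ℕ} {f : MvPolynomial (Fin n) ℂ} (hf : f.IsHomogeneous e) (he : 1 ≤ e) :
    eval (0 : Fin n → ℂ) f = 0 := by
  have h := hom_smul hf 0 0
  have h1 : (fun i : Fin n => (0 : ℂ) * (0 : Fin n → ℂ) i) = 0 := by funext i; simp
  rw [h1, zero_pow (by omega), zero_mul] at h
  exact h

lemma eval_lin_cx (l y : Fin n → ℝ) : eval (cx y) (lin l) = ((dot l y : ℝ) : ℂ) := by
  rw [eval_lin]
  unfold dot cx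
  push_cast
  rfl

lemma dot_add (l a b : Fin n → ℝ) : dot l (a + b) = dot l a + dot l b := by
  unfold dot
  simp [mul_add, Finset.sum_add_distrib]

lemma dot_smul (l a : Fin n → ℝ) (t : ℝ) : dot l (t • a) = t * dot l a := by
  unfold dot
  rw [Finset.mul_sum]
  apply Finset.sum_congr rfl
  intro i _
  simp only [Pi.smul_apply, smul_eq_mul]
  ring

lemma dot_sub (l a b : Fin n → ℝ) : dot l (a - b) = dot l a - dot l b := by
  unfold dot
  simp [mul_sub, Finset.sum_sub_distrib]

/-- the directions of invariance -/
noncomputable def KK (f : MvPolynomial (Fin n) ℂ) : Submodule ℝ (Fin n → ℝ) where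
  carrier := {κ | Dk κ f = 0}
  add_mem' := by
    intro a b ha hb
    change Dk (a + b) f = 0
    have ha' : Dk a f = 0 := ha
    have hb' : Dk b f = 0 := hb
    have : Dk (a + b) f = Dk a f + Dk b f := by
      unfold Dk
      rw [← Finset.sum_add_distrib]
      apply Finset.sum_congr rfl
      intro i _
      simp only [Pi.add_apply]
      push_cast
      rw [C_add]
      ring
    rw [this, ha', hb', add_zero]
  zero_mem' := by
    change Dk 0 f = 0
    unfold Dk
    simp
  smul_mem' := by
    intro c a ha
    change Dk (c • a) f = 0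
    have ha' : Dk a f = 0 := ha
    have : Dk (c • a) f = C (c : ℂ) * Dk a f := by
      unfold Dk
      rw [Finset.mul_sum]
      apply Finset.sum_congr rfl
      intro i _
      simp only [Pi.smul_apply, smul_eq_mul]
      push_cast
      rw [C_mul]
      ring
    rw [this, ha', mul_zero]

lemma mem_KK {f : MvPolynomial (Fin n) ℂ} {κ : Fin n → ℝ} : κ ∈ KK f ↔ Dk κ f = 0 := Iff.rfl

/-- functionals are given by vectors -/
lemma dual_dot (φ : (Fin n → ℝ) →ₗ[ℝ] ℝ) (y : Fin n → ℝ) :
    φ y = dot (fun i => φ (Pi.single i 1)) y := by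
  conv_lhs => rw [← Finset.univ_sum_single y]
  rw [map_sum]
  unfold dot
  apply Finset.sum_congr rfl
  intro i _
  have : (Pi.single i (y i) : Fin n → ℝ) = y i • Pi.single i 1 := by
    rw [← Pi.single_smul, smul_eq_mul, mul_one]
  rw [this, map_smul, smul_eq_mul, mul_comm]

end Pool.Agent.W721.EC
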